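import Pool.Agent.H63LD.Main

/-!
# Size dependent congruences: moduli with boundedly many divisors

The set `A` of the problem has a natural density, hence a logarithmic density, as soon as for some
`K` the moduli with more than `K` divisors have a convergent sum of reciprocals.  The residues are
arbitrary.
-/

open Filter Topology

namespace Pool.Agent.H63LD.BoundedDivisorsOld

open scoped Classical in
/-- If for some `K` the sum of `1 / n i` over the moduli with more than `K` divisors converges (for
instance if all moduli have at most `K` divisors, or at most `log2 K` prime factors counted with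
multiplicity), then for all residues `a i` the set
`A = {m : for every i, m < n i or m is not congruent to a i modulo n i}` has a natural density
`L`, and its logarithmic density exists and is `L` too. -/
theorem result (n : ℕ → ℕ) (a : ℕ → ℤ) (hn : StrictMono n) (hpos : ∀ i, 0 < n i) (K : ℕ)
    (hsum : Summable fun i => if K < (n i).divisors.card then 1 / (n i : ℝ) else 0) :
    ∃ L : ℝ,
      Tendsto (fun x : ℕ => (((Finset.Icc 1 x).filter (fun m : ℕ =>
        ∀ i, m < n i ∨ ¬ ((m : ℤ) ≡ a i [ZMOD (n i : ℤ)]))).card : ℝ) / x) atTop (𝓝 L) ∧
      Tendsto
        (fun x : ℕ =>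
          (∑ m ∈ Finset.Icc 1 x,
              Set.indicator
                {m : ℕ | ∀ i, m < n i ∨ ¬ ((m : ℤ) ≡ a i [ZMOD (n i : ℤ)])}
                (fun m : ℕ => (1 : ℝ) / (m : ℝ)) m) / Real.log (x : ℝ))
        atTop (𝓝 L) := by
  have h := H63LD.natural_density n a hn hpos K hsum
  exact ⟨_, h, H63LD.log_of_nat _ _ h⟩

end Pool.Agent.H63LD.BoundedDivisorsOld
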