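import Pool.Agent.H63LD.Pack

/-! # The covering inequality

A union of residue classes whose moduli have at most `K` divisors and are at most `X` covers at most
`2 K² X μ` elements of any interval of length `X`, where `μ` is the density of the union. -/

open Finset

namespace Pool.Agent.H63LD

variable {ι : Type*} [DecidableEq ι]

open scoped Classical in
/-- the elements of `I` in the union of the classes -/
noncomputable def hit (F : Finset ι) (n : ι → ℕ) (a : ι → ℤ) (I : Finset ℤ) : Finset ℤ :=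
  I.filter (fun m => ∃ i ∈ F, m ≡ a i [ZMOD n i])

theorem second_moment (F : Finset ι) (n : ι → ℕ) (a : ι → ℤ) (hn : ∀ i ∈ F, 0 < n i) (K : ℕ)
    (hK : ∀ i ∈ F, (n i).divisors.card ≤ K) {L : ℕ} (hL : 0 < L) (hdvd : ∀ i ∈ F, n i ∣ L)
    (y : ι → ℝ) (hy0 : ∀ i, 0 ≤ y i)
    (hP : ∀ (d : ℕ), 0 < d → ∀ r : ℤ, wt F n a y d r ≤ 1 / d) :
    (∑ i ∈ F, y i) * L ≤ K * (hit F n a (Finset.Ico (0 : ℤ) L)).card := by
  classical
  set Y := ∑ i ∈ F, y i with hY
  have hY0 : 0 ≤ Y := Finset.sum_nonneg fun i _ => hy0 i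
  have hLr : (0 : ℝ) < L := by exact_mod_cast hL
  set ind : ι → ℤ → ℝ := fun i r => if r ≡ a i [ZMOD n i] then 1 else 0 with hind
  set N : ℤ → ℝ := fun r => ∑ i ∈ F, y i * n i * ind i r with hN
  set R := Finset.Ico (0 : ℤ) L with hR
  have hcnt : ∀ i ∈ F, ∑ r ∈ R, ind i r = L / n i := by
    intro i hi
    have h1 := card_class_eq (hn i hi) (hdvd i hi) 0 (a i)
    rw [zero_add] at h1
    rw [← h1, hind]
    simp only [Finset.sum_boole]
    rfl
  have hS1 : ∑ r ∈ R, N r = L * Y := by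
    rw [hN]
    simp only
    rw [Finset.sum_comm, hY, Finset.mul_sum]
    refine Finset.sum_congr rfl fun i hi => ?_
    rw [← Finset.mul_sum, hcnt i hi]
    have : (n i : ℝ) ≠ 0 := by exact_mod_cast (hn i hi).ne'
    field_simp
  have hgcd : ∀ i ∈ F, ∑ j ∈ F, y j *
      (if a i ≡ a j [ZMOD (Nat.gcd (n i) (n j) : ℕ)] then (Nat.gcd (n i) (n j) : ℝ) else 0) ≤ K := by
    intro i hi
    have h1 : ∀ j ∈ F, y j *
        (if a i ≡ a j [ZMOD (Nat.gcd (n i) (n j) : ℕ)] then (Nat.gcd (n i) (n j) : ℝ) else 0) ≤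
        ∑ d ∈ (n i).divisors, (d : ℝ) *
          (if d ∣ n j ∧ a j ≡ a i [ZMOD d] then y j else 0) := by
      intro j _
      have hnn : ∀ d ∈ (n i).divisors, 0 ≤ (d : ℝ) *
          (if d ∣ n j ∧ a j ≡ a i [ZMOD d] then y j else 0) := by
        intro d _
        have := hy0 j
        split_ifs <;> positivity
      split_ifs with h
      · have hmem : Nat.gcd (n i) (n j) ∈ (n i).divisors :=
          Nat.mem_divisors.2 ⟨Nat.gcd_dvd_left _ _, (hn i hi).ne'⟩
        refine le_trans (le_of_eq ?_) (Finset.single_le_sum hnn hmem)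
        rw [if_pos ⟨Nat.gcd_dvd_right _ _, h.symm⟩]
        ring
      · rw [mul_zero]
        exact Finset.sum_nonneg hnn
    refine (Finset.sum_le_sum h1).trans ?_
    rw [Finset.sum_comm]
    have h2 : ∀ d ∈ (n i).divisors, ∑ j ∈ F, (d : ℝ) *
        (if d ∣ n j ∧ a j ≡ a i [ZMOD d] then y j else 0) ≤ 1 := by
      intro d hd
      have hd0 : 0 < d := Nat.pos_of_mem_divisors hd
      rw [← Finset.mul_sum, ← Finset.sum_filter]
      have h3 := hP d hd0 (a i)
      unfold wt at h3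
      have hdr : (0 : ℝ) < d := by exact_mod_cast hd0
      calc (d : ℝ) * _ ≤ d * (1 / d) := mul_le_mul_of_nonneg_left h3 hdr.le
        _ = 1 := by field_simp
    refine (Finset.sum_le_sum h2).trans ?_
    rw [Finset.sum_const, nsmul_eq_mul, mul_one]
    exact_mod_cast hK i hi
  have hS2 : ∑ r ∈ R, N r ^ 2 ≤ L * (K * Y) := by
    have h1 : ∑ r ∈ R, N r ^ 2 = ∑ i ∈ F, ∑ j ∈ F, y i * n i * (y j * n j) *
        ((R.filter (fun r => r ≡ a i [ZMOD n i] ∧ r ≡ a j [ZMOD n j])).card : ℝ) := by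
      have h2 : ∀ r ∈ R, N r ^ 2 = ∑ i ∈ F, ∑ j ∈ F, y i * n i * (y j * n j) *
          (if r ≡ a i [ZMOD n i] ∧ r ≡ a j [ZMOD n j] then 1 else 0) := by
        intro r _
        rw [hN]
        simp only
        rw [sq, Finset.sum_mul_sum]
        refine Finset.sum_congr rfl fun i _ => Finset.sum_congr rfl fun j _ => ?_
        rw [hind]
        simp only
        split_ifs <;> simp_all
      rw [Finset.sum_congr rfl h2, Finset.sum_comm]
      refine Finset.sum_congr rfl fun i _ => ?_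
      rw [Finset.sum_comm]
      refine Finset.sum_congr rfl fun j _ => ?_
      rw [← Finset.mul_sum, Finset.sum_boole]
    rw [h1]
    have h3 : ∀ i ∈ F, ∑ j ∈ F, y i * n i * (y j * n j) *
        ((R.filter (fun r => r ≡ a i [ZMOD n i] ∧ r ≡ a j [ZMOD n j])).card : ℝ) ≤
        L * (K * y i) := by
      intro i hi
      have h4 : ∀ j ∈ F, y i * n i * (y j * n j) *
          ((R.filter (fun r => r ≡ a i [ZMOD n i] ∧ r ≡ a j [ZMOD n j])).card : ℝ) ≤
          L * y i * (y j * (if a i ≡ a j [ZMOD (Nat.gcd (n i) (n j) : ℕ)] then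
            (Nat.gcd (n i) (n j) : ℝ) else 0)) := by
        intro j hj
        have h5 := card_inter_le (hn i hi) (hn j hj) (hdvd i hi) (hdvd j hj) (a i) (a j)
        have h6 : (0 : ℝ) ≤ y i * n i * (y j * n j) := by
          have := hy0 i; have := hy0 j; positivity
        refine (mul_le_mul_of_nonneg_left h5 h6).trans (le_of_eq ?_)
        have h7 : (n i : ℝ) ≠ 0 := by exact_mod_cast (hn i hi).ne'
        have h8 : (n j : ℝ) ≠ 0 := by exact_mod_cast (hn j hj).ne'
        split_ifs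
        · field_simp
        · ring
      refine (Finset.sum_le_sum h4).trans ?_
      rw [← Finset.mul_sum]
      have h9 : 0 ≤ (L : ℝ) * y i := mul_nonneg hLr.le (hy0 i)
      refine (mul_le_mul_of_nonneg_left (hgcd i hi) h9).trans (le_of_eq ?_)
      ring
    refine (Finset.sum_le_sum h3).trans (le_of_eq ?_)
    rw [← Finset.mul_sum, ← Finset.mul_sum]
  set U := hit F n a R with hU
  have hN0 : ∀ r ∈ R, r ∉ U → N r = 0 := by
    intro r hr hru
    rw [hN]
    simp only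
    refine Finset.sum_eq_zero fun i hi => ?_
    rw [hind]
    simp only
    rw [if_neg, mul_zero]
    intro h
    exact hru (Finset.mem_filter.2 ⟨hr, i, hi, h⟩)
  have hUR : U ⊆ R := Finset.filter_subset _ _
  have h1 : ∑ r ∈ U, N r = L * Y := by
    rw [← hS1]
    exact Finset.sum_subset hUR (fun r hr hru => hN0 r hr hru)
  have h2 : ∑ r ∈ U, N r ^ 2 ≤ L * (K * Y) :=
    (Finset.sum_le_sum_of_subset_of_nonneg hUR (fun _ _ _ => sq_nonneg _)).trans hS2
  have h3 : (∑ r ∈ U, N r) ^ 2 ≤ U.card * ∑ r ∈ U, N r ^ 2 := sq_sum_le_card_mul_sum_sq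
  rw [h1] at h3
  rcases hY0.eq_or_lt with h0 | hpos
  · rw [← h0, zero_mul]; positivity
  · have h4 : ((L : ℝ) * Y) ^ 2 ≤ U.card * (L * (K * Y)) :=
      h3.trans (mul_le_mul_of_nonneg_left h2 (by positivity))
    have h5 : (Y * L) * (L * Y) ≤ (K * U.card) * (L * Y) := by nlinarith
    exact le_of_mul_le_mul_right h5 (mul_pos hLr hpos)

theorem cover_bound (F : Finset ι) (n : ι → ℕ) (a : ι → ℤ) (hn : ∀ i ∈ F, 0 < n i) (K : ℕ)
    (hK : ∀ i ∈ F, (n i).divisors.card ≤ K) (A : ℤ) (X : ℕ) (hX : ∀ i ∈ F, n i ≤ X)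
    (y : ι → ℝ) (hy0 : ∀ i, 0 ≤ y i)
    (hT : ∀ i ∈ F, ∃ d : ℕ, d ∣ n i ∧ wt F n a y d (a i) = 1 / d) :
    ((hit F n a (Finset.Ico A (A + X))).card : ℝ) ≤ 2 * K * X * ∑ i ∈ F, y i := by
  classical
  choose! dd hdd hdt using hT
  set T : Finset (ℕ × ℤ) := F.image (fun i => (dd i, a i % (dd i : ℤ))) with hTdef
  have hTpos : ∀ D ∈ T, 0 < D.1 ∧ D.1 ≤ X ∧ wt F n a y D.1 D.2 = 1 / D.1 ∧
      D.2 = D.2 % (D.1 : ℤ) := by
    intro D hD
    rw [hTdef, Finset.mem_image] at hD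
    obtain ⟨i, hi, rfl⟩ := hD
    have h0 : 0 < dd i := Nat.pos_of_dvd_of_pos (hdd i hi) (hn i hi)
    refine ⟨h0, (Nat.le_of_dvd (hn i hi) (hdd i hi)).trans (hX i hi), ?_, ?_⟩
    · rw [← hdt i hi]
      exact wt_congr (Int.mod_modEq _ _)
    · simp
  have hsub : hit F n a (Finset.Ico A (A + X)) ⊆
      T.biUnion (fun D => (Finset.Ico A (A + X)).filter (fun m => m ≡ D.2 [ZMOD D.1])) := by
    intro m hm
    unfold hit at hm
    rw [Finset.mem_filter] at hm
    obtain ⟨hm1, i, hi, hmi⟩ := hm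
    rw [Finset.mem_biUnion]
    refine ⟨(dd i, a i % (dd i : ℤ)), Finset.mem_image_of_mem _ hi, ?_⟩
    rw [Finset.mem_filter]
    refine ⟨hm1, ?_⟩
    have h1 : m ≡ a i [ZMOD dd i] := hmi.of_dvd (by exact_mod_cast hdd i hi)
    exact h1.trans (Int.mod_modEq _ _).symm
  have h1 : ((hit F n a (Finset.Ico A (A + X))).card : ℝ) ≤
      ∑ D ∈ T, (((Finset.Ico A (A + X)).filter (fun m => m ≡ D.2 [ZMOD D.1])).card : ℝ) := by
    have := (Finset.card_le_card hsub).trans Finset.card_biUnion_le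
    exact_mod_cast this
  have h2 : ∑ D ∈ T, (((Finset.Ico A (A + X)).filter (fun m => m ≡ D.2 [ZMOD D.1])).card : ℝ) ≤
      ∑ D ∈ T, 2 * X * wt F n a y D.1 D.2 := by
    refine Finset.sum_le_sum fun D hD => ?_
    obtain ⟨h0, hDX, hw, _⟩ := hTpos D hD
    refine (card_class_le A X h0 D.2).trans ?_
    rw [hw]
    have h3 : (0 : ℝ) < D.1 := by exact_mod_cast h0
    have h4 : (D.1 : ℝ) ≤ X := by exact_mod_cast hDX
    have h5 : (1 : ℝ) ≤ X / D.1 := by rw [le_div_iff₀ h3]; linarith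
    have h6 : 2 * (X : ℝ) * (1 / D.1) = X / D.1 + X / D.1 := by ring
    rw [h6]; linarith
  have h3 : ∑ D ∈ T, wt F n a y D.1 D.2 ≤ K * ∑ i ∈ F, y i := by
    have h4 : ∀ D ∈ T, wt F n a y D.1 D.2 =
        ∑ j ∈ F, (if D.1 ∣ n j ∧ a j ≡ D.2 [ZMOD D.1] then y j else 0) := by
      intro D _
      unfold wt
      rw [Finset.sum_filter]
    rw [Finset.sum_congr rfl h4, Finset.sum_comm, Finset.mul_sum]
    refine Finset.sum_le_sum fun j hj => ?_
    rw [← Finset.sum_filter, Finset.sum_const, nsmul_eq_mul]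
    refine mul_le_mul_of_nonneg_right ?_ (hy0 j)
    have h5 : (T.filter (fun D => D.1 ∣ n j ∧ a j ≡ D.2 [ZMOD D.1])).card ≤
        (n j).divisors.card := by
      refine Finset.card_le_card_of_injOn (fun D => D.1) ?_ ?_
      · intro D hD
        have hD' := (Finset.mem_filter.1 hD).2
        exact Finset.mem_coe.2 (Nat.mem_divisors.2 ⟨hD'.1, (hn j hj).ne'⟩)
      · intro D hD D' hD' he
        have hD1 := Finset.mem_filter.1 hD
        have hD2 := Finset.mem_filter.1 hD'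
        have he' : D.1 = D'.1 := he
        refine Prod.ext he' ?_
        rw [(hTpos D hD1.1).2.2.2, (hTpos D' hD2.1).2.2.2, ← he']
        have h6 : D.2 ≡ D'.2 [ZMOD D.1] := by
          have h7 := hD2.2.2
          rw [← he'] at h7
          exact hD1.2.2.symm.trans h7
        exact h6
    exact_mod_cast h5.trans (hK j hj)
  have h4 : ∑ D ∈ T, 2 * (X : ℝ) * wt F n a y D.1 D.2 ≤ 2 * X * (K * ∑ i ∈ F, y i) := by
    rw [← Finset.mul_sum]
    exact mul_le_mul_of_nonneg_left h3 (by positivity)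
  refine (h1.trans (h2.trans h4)).trans (le_of_eq ?_)
  ring

/-- the covering inequality -/
theorem union_bound (F : Finset ι) (n : ι → ℕ) (a : ι → ℤ) (hn : ∀ i ∈ F, 0 < n i) (K : ℕ)
    (hK : ∀ i ∈ F, (n i).divisors.card ≤ K) {L : ℕ} (hL : 0 < L) (hdvd : ∀ i ∈ F, n i ∣ L)
    (A : ℤ) (X : ℕ) (hX : ∀ i ∈ F, n i ≤ X) :
    ((hit F n a (Finset.Ico A (A + X))).card : ℝ) * L ≤
      2 * K ^ 2 * X * (hit F n a (Finset.Ico (0 : ℤ) L)).card := by
  obtain ⟨y, hy0, _, hP, hT⟩ := exists_packing F n a hn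
  have h1 := cover_bound F n a hn K hK A X hX y hy0 hT
  have h2 := second_moment F n a hn K hK hL hdvd y hy0 hP
  calc ((hit F n a (Finset.Ico A (A + X))).card : ℝ) * L ≤ (2 * K * X * ∑ i ∈ F, y i) * L :=
        mul_le_mul_of_nonneg_right h1 (by positivity)
    _ = 2 * K * X * ((∑ i ∈ F, y i) * L) := by ring
    _ ≤ 2 * K * X * (K * (hit F n a (Finset.Ico (0 : ℤ) L)).card) :=
        mul_le_mul_of_nonneg_left h2 (by positivity)
    _ = _ := by ring

end Pool.Agent.H63LD
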