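import Mathlib

/-! # Integers with few divisors have density zero -/

open Finset Filter Topology

namespace Pool.Agent.H63LD

theorem exists_block (N : ℕ) {ε : ℝ} (hε : 0 < ε) : ∃ P : Finset ℕ, (∀ p ∈ P, p.Prime ∧ N < p) ∧
    ∏ p ∈ P, (1 - (p : ℝ)⁻¹) ≤ ε := by
  have h1 := not_summable_one_div_on_primes
  have h2 : Tendsto (fun n => ∑ i ∈ Finset.range n,
      Set.indicator {p : ℕ | p.Prime} (fun n : ℕ => (1 : ℝ) / n) i) atTop atTop := by
    refine (not_summable_iff_tendsto_nat_atTop_of_nonneg ?_).1 h1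
    intro n
    exact Set.indicator_nonneg (fun _ _ => by positivity) n
  set c : ℝ := ∑ i ∈ Finset.range (N + 1),
      Set.indicator {p : ℕ | p.Prime} (fun n : ℕ => (1 : ℝ) / n) i with hc
  obtain ⟨M, hM⟩ := (h2.eventually_ge_atTop (c - Real.log ε)).exists
  refine ⟨(Finset.range M).filter (fun p => p.Prime ∧ N < p), ?_, ?_⟩
  · intro p hp
    exact (Finset.mem_filter.1 hp).2
  · set P := (Finset.range M).filter (fun p => p.Prime ∧ N < p) with hP
    have h3 : c - Real.log ε ≤ c + ∑ p ∈ P, (p : ℝ)⁻¹ := by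
      refine hM.trans ?_
      have h4 : ∑ i ∈ Finset.range M,
          Set.indicator {p : ℕ | p.Prime} (fun n : ℕ => (1 : ℝ) / n) i ≤
          ∑ i ∈ Finset.range (N + 1) ∪ P,
          Set.indicator {p : ℕ | p.Prime} (fun n : ℕ => (1 : ℝ) / n) i := by
        rw [← Finset.sum_filter_add_sum_filter_not (Finset.range M)
          (fun i => i ∈ Finset.range (N + 1) ∪ P)]
        have h5 : ∑ i ∈ (Finset.range M).filter (fun i => ¬ (i ∈ Finset.range (N + 1) ∪ P)),
            Set.indicator {p : ℕ | p.Prime} (fun n : ℕ => (1 : ℝ) / n) i = 0 := by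
          refine Finset.sum_eq_zero fun i hi => ?_
          rw [Finset.mem_filter, Finset.mem_union, not_or] at hi
          obtain ⟨hi1, hi2, hi3⟩ := hi
          apply Set.indicator_of_notMem
          intro hp
          apply hi3
          rw [hP, Finset.mem_filter]
          refine ⟨hi1, hp, ?_⟩
          rw [Finset.mem_range] at hi2
          omega
        rw [h5, add_zero]
        refine Finset.sum_le_sum_of_subset_of_nonneg ?_ ?_
        · intro i hi
          exact (Finset.mem_filter.1 hi).2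
        · intro i _ _
          exact Set.indicator_nonneg (fun _ _ => by positivity) i
      refine h4.trans ?_
      have h6 : Disjoint (Finset.range (N + 1)) P := by
        rw [Finset.disjoint_left]
        intro i hi hi'
        rw [Finset.mem_range] at hi
        have := (Finset.mem_filter.1 hi').2.2
        omega
      rw [Finset.sum_union h6]
      refine le_of_eq ?_
      congr 1
      refine Finset.sum_congr rfl fun i hi => ?_
      rw [Set.indicator_of_mem (show i ∈ {p : ℕ | p.Prime} from (Finset.mem_filter.1 hi).2.1),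
        one_div]
    have h7 : -Real.log ε ≤ ∑ p ∈ P, (p : ℝ)⁻¹ := by linarith
    calc ∏ p ∈ P, (1 - (p : ℝ)⁻¹) ≤ ∏ p ∈ P, Real.exp (-(p : ℝ)⁻¹) := by
          refine Finset.prod_le_prod ?_ ?_
          · intro p hp
            have h8 : 1 < p := ((Finset.mem_filter.1 hp).2.1).one_lt
            have h9 : (1 : ℝ) ≤ p := by exact_mod_cast h8.le
            have := inv_le_one_of_one_le₀ h9
            linarith
          · intro p _
            have := Real.add_one_le_exp (-(p : ℝ)⁻¹)
            linarith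
      _ = Real.exp (-∑ p ∈ P, (p : ℝ)⁻¹) := by
          rw [← Real.exp_sum, Finset.sum_neg_distrib]
      _ ≤ Real.exp (Real.log ε) := Real.exp_le_exp.2 (by linarith)
      _ = ε := Real.exp_log hε

theorem block_count (P : Finset ℕ) (hP : ∀ p ∈ P, p.Prime) (x : ℕ) :
    (((Finset.Icc 1 x).filter (fun m => ∀ p ∈ P, ¬ p ∣ m)).card : ℝ) ≤
      (∏ p ∈ P, (1 - (p : ℝ)⁻¹)) * x + ∏ p ∈ P, (p : ℝ) := by
  set W : ℕ := ∏ p ∈ P, p with hW
  have hpos : 0 < W := Finset.prod_pos fun p hp => (hP p hp).pos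
  have h1 : (Finset.Icc 1 x).filter (fun m => ∀ p ∈ P, ¬ p ∣ m) ⊆
      (Finset.Ico 1 (1 + x)).filter (fun m => W.Coprime m) := by
    intro m hm
    rw [Finset.mem_filter, Finset.mem_Icc] at hm
    rw [Finset.mem_filter, Finset.mem_Ico]
    refine ⟨⟨hm.1.1, by omega⟩, ?_⟩
    rw [hW]
    refine Nat.Coprime.prod_left fun p hp => ?_
    exact ((hP p hp).coprime_iff_not_dvd).2 (hm.2 p hp)
  have h2 := (Finset.card_le_card h1).trans (Nat.Ico_filter_coprime_le 1 x hpos.ne')
  have h3 : (Nat.totient W : ℝ) = W * ∏ p ∈ P, (1 - (p : ℝ)⁻¹) := by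
    have h4 := Nat.totient_eq_mul_prod_factors W
    rw [hW, Nat.primeFactors_prod hP] at h4
    rw [← hW] at h4
    have h5 : ((Nat.totient W : ℚ) : ℝ) = ((W * ∏ p ∈ P, (1 - (p : ℚ)⁻¹) : ℚ) : ℝ) := by rw [h4]
    push_cast at h5
    exact h5
  have hprod0 : 0 ≤ ∏ p ∈ P, (1 - (p : ℝ)⁻¹) := by
    refine Finset.prod_nonneg fun p hp => ?_
    have h9 : (1 : ℝ) ≤ p := by exact_mod_cast (hP p hp).one_lt.le
    have := inv_le_one_of_one_le₀ h9
    linarith
  have hprod1 : ∏ p ∈ P, (1 - (p : ℝ)⁻¹) ≤ 1 := by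
    refine Finset.prod_le_one ?_ ?_
    · intro p hp
      have h9 : (1 : ℝ) ≤ p := by exact_mod_cast (hP p hp).one_lt.le
      have := inv_le_one_of_one_le₀ h9
      linarith
    · intro p _
      have : (0 : ℝ) ≤ (p : ℝ)⁻¹ := by positivity
      linarith
  have hWr : (0 : ℝ) < W := by exact_mod_cast hpos
  have h6 : (((Finset.Icc 1 x).filter (fun m => ∀ p ∈ P, ¬ p ∣ m)).card : ℝ) ≤
      (Nat.totient W : ℝ) * ((x / W : ℕ) + 1) := by exact_mod_cast h2
  have h7 : ((x / W : ℕ) : ℝ) ≤ x / W := Nat.cast_div_le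
  have h8 : (0 : ℝ) ≤ (Nat.totient W : ℝ) := by positivity
  calc _ ≤ (Nat.totient W : ℝ) * ((x / W : ℕ) + 1) := h6
    _ ≤ (Nat.totient W : ℝ) * (x / W + 1) := by
        apply mul_le_mul_of_nonneg_left _ h8
        linarith
    _ = (∏ p ∈ P, (1 - (p : ℝ)⁻¹)) * x + W * ∏ p ∈ P, (1 - (p : ℝ)⁻¹) := by
        rw [h3]; field_simp
    _ ≤ (∏ p ∈ P, (1 - (p : ℝ)⁻¹)) * x + ∏ p ∈ P, (p : ℝ) := by
        have h10 : (W : ℝ) = ∏ p ∈ P, (p : ℝ) := by rw [hW]; push_cast; rfl
        rw [← h10]
        have : (W : ℝ) * ∏ p ∈ P, (1 - (p : ℝ)⁻¹) ≤ W * 1 :=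
          mul_le_mul_of_nonneg_left hprod1 hWr.le
        linarith

theorem few_aux (K : ℕ) : ∀ (N : ℕ) {ε : ℝ}, 0 < ε → ∃ C : ℝ, 0 ≤ C ∧ ∀ x : ℕ,
    (((Finset.Icc 1 x).filter (fun m => (m.primeFactors.filter (fun p => N < p)).card < K)).card
      : ℝ) ≤ ε * x + C := by
  induction K with
  | zero =>
    intro N ε hε
    refine ⟨0, le_rfl, fun x => ?_⟩
    simp
    positivity
  | succ K ih =>
    intro N ε hε
    obtain ⟨P, hP, hPε⟩ := exists_block N (half_pos hε)
    set N' : ℕ := P.sup id with hN'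
    obtain ⟨C, hC0, hC⟩ := ih N' (half_pos hε)
    refine ⟨C + ∏ p ∈ P, (p : ℝ), by positivity, fun x => ?_⟩
    have hsub : (Finset.Icc 1 x).filter
        (fun m => (m.primeFactors.filter (fun p => N < p)).card < K + 1) ⊆
        (Finset.Icc 1 x).filter (fun m => ∀ p ∈ P, ¬ p ∣ m) ∪ (Finset.Icc 1 x).filter
          (fun m => (m.primeFactors.filter (fun p => N' < p)).card < K) := by
      intro m hm
      rw [Finset.mem_filter] at hm
      rw [Finset.mem_union, Finset.mem_filter, Finset.mem_filter]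
      by_cases h : ∀ p ∈ P, ¬ p ∣ m
      · left; exact ⟨hm.1, h⟩
      · right
        push Not at h
        obtain ⟨p, hp, hpm⟩ := h
        refine ⟨hm.1, ?_⟩
        have hm0 : m ≠ 0 := by
          have := (Finset.mem_Icc.1 hm.1).1
          omega
        have hss : m.primeFactors.filter (fun q => N' < q) ⊂
            m.primeFactors.filter (fun q => N < q) := by
          rw [Finset.ssubset_iff_of_subset]
          · refine ⟨p, ?_, ?_⟩
            · rw [Finset.mem_filter, Nat.mem_primeFactors]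
              exact ⟨⟨(hP p hp).1, hpm, hm0⟩, (hP p hp).2⟩
            · rw [Finset.mem_filter, not_and, not_lt]
              intro _
              exact Finset.le_sup (f := id) hp
          · intro q hq
            rw [Finset.mem_filter] at hq ⊢
            refine ⟨hq.1, lt_trans ?_ hq.2⟩
            exact lt_of_lt_of_le (hP p hp).2 (Finset.le_sup (f := id) hp)
        have := Finset.card_lt_card hss
        omega
    have h1 := (Finset.card_le_card hsub).trans (Finset.card_union_le _ _)
    have h2 : (((Finset.Icc 1 x).filter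
        (fun m => (m.primeFactors.filter (fun p => N < p)).card < K + 1)).card : ℝ) ≤
        (((Finset.Icc 1 x).filter (fun m => ∀ p ∈ P, ¬ p ∣ m)).card : ℝ) +
        (((Finset.Icc 1 x).filter
          (fun m => (m.primeFactors.filter (fun p => N' < p)).card < K)).card : ℝ) := by
      exact_mod_cast h1
    have h3 := block_count P (fun p hp => (hP p hp).1) x
    have h4 := hC x
    have h5 : (∏ p ∈ P, (1 - (p : ℝ)⁻¹)) * x ≤ ε / 2 * x :=
      mul_le_mul_of_nonneg_right hPε (by positivity)
    linarith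

/-- integers with at most `K` divisors have density zero -/
theorem few (K : ℕ) : Tendsto (fun x : ℕ =>
    (((Finset.Icc 1 x).filter (fun m => m.divisors.card ≤ K)).card : ℝ) / x) atTop (𝓝 0) := by
  rw [Metric.tendsto_atTop]
  intro ε hε
  obtain ⟨C, hC0, hC⟩ := few_aux K 0 (half_pos hε)
  obtain ⟨M, hM⟩ := exists_nat_gt (2 * C / ε)
  refine ⟨M + 1, fun x hx => ?_⟩
  have hx0 : (0 : ℝ) < x := by
    have : 0 < x := by omega
    exact_mod_cast this
  rw [Real.dist_eq, sub_zero, abs_of_nonneg (by positivity), div_lt_iff₀ hx0]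
  have hsub : (Finset.Icc 1 x).filter (fun m => m.divisors.card ≤ K) ⊆
      (Finset.Icc 1 x).filter (fun m => (m.primeFactors.filter (fun p => 0 < p)).card < K) := by
    intro m hm
    rw [Finset.mem_filter] at hm ⊢
    refine ⟨hm.1, ?_⟩
    have hm0 : m ≠ 0 := by
      have := (Finset.mem_Icc.1 hm.1).1
      omega
    have h1 : m.primeFactors.filter (fun p => 0 < p) ⊂ m.divisors := by
      rw [Finset.ssubset_iff_of_subset]
      · refine ⟨1, by simp [hm0], ?_⟩
        intro h1
        rw [Finset.mem_filter, Nat.mem_primeFactors] at h1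
        exact Nat.not_prime_one h1.1.1
      · intro p hp
        rw [Finset.mem_filter, Nat.mem_primeFactors] at hp
        exact Nat.mem_divisors.2 ⟨hp.1.2.1, hm0⟩
    exact lt_of_lt_of_le (Finset.card_lt_card h1) hm.2
  have h1 : (((Finset.Icc 1 x).filter (fun m => m.divisors.card ≤ K)).card : ℝ) ≤
      ε / 2 * x + C := by
    refine le_trans ?_ (hC x)
    exact_mod_cast Finset.card_le_card hsub
  have h2 : 2 * C / ε < x := by
    refine hM.trans ?_
    exact_mod_cast (by omega : M < x)
  rw [div_lt_iff₀ hε] at h2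
  nlinarith

end Pool.Agent.H63LD
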