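import Pool.Agent.H63LD.Rel
import Pool.Agent.H63LD.Few

/-! # Densities of finite unions of residue classes -/

open Finset Filter Topology

namespace Pool.Agent.H63LD

open scoped Classical in
/-- number of `m` in `[0, x)` with `P m` -/
noncomputable def cnt (P : ℤ → Prop) (x : ℕ) : ℕ := ((Finset.Ico (0 : ℤ) x).filter P).card

theorem cnt_eq (P : ℤ → Prop) [DecidablePred P] (x : ℕ) :
    cnt P x = ((Finset.Ico (0 : ℤ) x).filter P).card := by
  unfold cnt
  congr

theorem cnt_le (P : ℤ → Prop) (x : ℕ) : cnt P x ≤ x := by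
  classical
  unfold cnt
  refine (Finset.card_filter_le _ _).trans ?_
  simp

theorem cnt_mono (P : ℤ → Prop) {x y : ℕ} (h : x ≤ y) : cnt P x ≤ cnt P y := by
  classical
  unfold cnt
  apply Finset.card_le_card
  apply Finset.filter_subset_filter
  apply Finset.Ico_subset_Ico_right
  exact_mod_cast h

theorem cnt_imp {P R : ℤ → Prop} (h : ∀ m, P m → R m) (x : ℕ) : cnt P x ≤ cnt R x := by
  classical
  unfold cnt
  apply Finset.card_le_card
  intro m hm
  rw [Finset.mem_filter] at hm ⊢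
  exact ⟨hm.1, h m hm.2⟩

theorem cnt_diff {P R S : ℤ → Prop} (h1 : ∀ m, P m → S m) (h2 : ∀ m, R m → S m) (x : ℕ) :
    cnt (fun m => ¬ P m ∧ R m) x + cnt P x ≤ cnt S x := by
  classical
  rw [cnt_eq, cnt_eq, cnt_eq]
  rw [← Finset.card_union_of_disjoint]
  · apply Finset.card_le_card
    intro m hm
    rw [Finset.mem_union, Finset.mem_filter, Finset.mem_filter] at hm
    rw [Finset.mem_filter]
    rcases hm with ⟨h, _, h3⟩ | ⟨h, h3⟩
    · exact ⟨h, h2 m h3⟩
    · exact ⟨h, h1 m h3⟩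
  · rw [Finset.disjoint_left]
    intro m hm hm'
    rw [Finset.mem_filter] at hm hm'
    exact hm.2.1 hm'.2

theorem cnt_period {P : ℤ → Prop} {q : ℕ} (hq : 0 < q) (hP : ∀ m t : ℤ, P (m + q * t) ↔ P m)
    (c : ℕ) : cnt P (q * c) = c * cnt P q := by
  classical
  have hq' : (0 : ℤ) < q := by exact_mod_cast hq
  have h := fiber_count hq (Finset.Ico (0 : ℤ) q) (Finset.Subset.refl _) P c
  have h1 : (Finset.Ico (0 : ℤ) ((q * c : ℕ) : ℤ)).filter
      (fun m => m % (q : ℤ) ∈ Finset.Ico (0 : ℤ) q ∧ P m) =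
      (Finset.Ico (0 : ℤ) ((q * c : ℕ) : ℤ)).filter P := by
    apply Finset.filter_congr
    intro m _
    rw [and_iff_right]
    exact Finset.mem_Ico.2 ⟨Int.emod_nonneg _ hq'.ne', Int.emod_lt_of_pos _ hq'⟩
  rw [h1] at h
  unfold cnt
  rw [h]
  have h2 : ∀ b ∈ Finset.Ico (0 : ℤ) q,
      ((Finset.Ico (0 : ℤ) c).filter (fun t => P (b + q * t))).card = if P b then c else 0 := by
    intro b _
    split_ifs with hb
    · rw [Finset.filter_true_of_mem (fun t _ => (hP b t).2 hb)]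
      simp
    · rw [Finset.filter_false_of_mem (fun t _ => fun h => hb ((hP b t).1 h))]
      simp
  rw [Finset.sum_congr rfl h2, ← Finset.sum_filter, Finset.sum_const, smul_eq_mul, mul_comm]

theorem cnt_upper {P : ℤ → Prop} {q : ℕ} (hq : 0 < q) (hP : ∀ m t : ℤ, P (m + q * t) ↔ P m)
    (x : ℕ) : (cnt P x : ℝ) ≤ (cnt P q : ℝ) / q * x + q := by
  have h1 : x ≤ q * (x / q + 1) := by
    have := Nat.div_add_mod x q
    have := Nat.mod_lt x hq
    rw [mul_add, mul_one]; omega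
  have h2 := cnt_mono P h1
  rw [cnt_period hq hP] at h2
  have hqr : (0 : ℝ) < q := by exact_mod_cast hq
  have h3 : (cnt P x : ℝ) ≤ (((x / q : ℕ) : ℝ) + 1) * cnt P q := by exact_mod_cast h2
  have h4 : ((x / q : ℕ) : ℝ) ≤ x / q := Nat.cast_div_le
  have h5 : (cnt P q : ℝ) ≤ q := by exact_mod_cast cnt_le P q
  calc (cnt P x : ℝ) ≤ (((x / q : ℕ) : ℝ) + 1) * cnt P q := h3
    _ ≤ ((x : ℝ) / q + 1) * cnt P q :=
        mul_le_mul_of_nonneg_right (by linarith) (by positivity)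
    _ = (cnt P q : ℝ) / q * x + cnt P q := by ring
    _ ≤ _ := by linarith

theorem cnt_lower {P : ℤ → Prop} {q : ℕ} (hq : 0 < q) (hP : ∀ m t : ℤ, P (m + q * t) ↔ P m)
    (x : ℕ) : (cnt P q : ℝ) / q * x - q ≤ (cnt P x : ℝ) := by
  have h2 := cnt_mono P (Nat.mul_div_le x q)
  rw [cnt_period hq hP] at h2
  have hqr : (0 : ℝ) < q := by exact_mod_cast hq
  have h3 : ((x / q : ℕ) : ℝ) * cnt P q ≤ (cnt P x : ℝ) := by exact_mod_cast h2
  have h4 : (x : ℝ) / q - 1 ≤ ((x / q : ℕ) : ℝ) := by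
    have h6 := Nat.div_add_mod x q
    have h7 : x % q < q := Nat.mod_lt x hq
    have h8 : (x : ℝ) = q * ((x / q : ℕ) : ℝ) + ((x % q : ℕ) : ℝ) := by exact_mod_cast h6.symm
    have h9 : ((x % q : ℕ) : ℝ) < q := by exact_mod_cast h7
    rw [sub_le_iff_le_add, div_le_iff₀ hqr]
    nlinarith
  have h5 : (cnt P q : ℝ) ≤ q := by exact_mod_cast cnt_le P q
  calc (cnt P q : ℝ) / q * x - q ≤ (cnt P q : ℝ) / q * x - cnt P q := by linarith
    _ = ((x : ℝ) / q - 1) * cnt P q := by ring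
    _ ≤ ((x / q : ℕ) : ℝ) * cnt P q := mul_le_mul_of_nonneg_right h4 (by positivity)
    _ ≤ _ := h3

section
variable (n : ℕ → ℕ) (a : ℕ → ℤ)

/-- `m` lies in a class with modulus at most `T` -/
def hitT (T : ℕ) (m : ℤ) : Prop := ∃ i, n i ≤ T ∧ m ≡ a i [ZMOD n i]

theorem hitT_mono {T T' : ℕ} (h : T ≤ T') {m : ℤ} (hm : hitT n a T m) : hitT n a T' m := by
  obtain ⟨i, hi, h2⟩ := hm
  exact ⟨i, hi.trans h, h2⟩

theorem hitT_period (hpos : ∀ i, 0 < n i) {T q : ℕ} (h : T.factorial ∣ q) (m t : ℤ) :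
    hitT n a T (m + q * t) ↔ hitT n a T m := by
  have key : ∀ i, n i ≤ T → (m + q * t ≡ a i [ZMOD n i] ↔ m ≡ a i [ZMOD n i]) := by
    intro i hi
    have h1 : n i ∣ q := (Nat.dvd_factorial (hpos i) hi).trans h
    obtain ⟨c, hc⟩ := h1
    have h2 : m + q * t ≡ m [ZMOD n i] := by
      rw [Int.modEq_iff_dvd]
      refine ⟨-(c * t), ?_⟩
      rw [hc]; push_cast; ring
    exact ⟨fun h3 => h2.symm.trans h3, fun h3 => h2.trans h3⟩
  constructor
  · rintro ⟨i, hi, h3⟩; exact ⟨i, hi, (key i hi).1 h3⟩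
  · rintro ⟨i, hi, h3⟩; exact ⟨i, hi, (key i hi).2 h3⟩

/-- density of the union of the classes with modulus at most `T` -/
noncomputable def del (T : ℕ) : ℝ := (cnt (hitT n a T) T.factorial : ℝ) / T.factorial

theorem cnt_hitT (hpos : ∀ i, 0 < n i) {T L : ℕ} (h : T.factorial ∣ L) :
    (cnt (hitT n a T) L : ℝ) = del n a T * L := by
  obtain ⟨c, rfl⟩ := h
  have hq : 0 < T.factorial := Nat.factorial_pos T
  rw [cnt_period hq (hitT_period n a hpos dvd_rfl)]
  unfold del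
  have : (T.factorial : ℝ) ≠ 0 := by exact_mod_cast hq.ne'
  push_cast
  field_simp

theorem del_mono (hpos : ∀ i, 0 < n i) : Monotone (del n a) := by
  intro T T' h
  have h1 := cnt_imp (fun m => hitT_mono n a h (m := m)) T'.factorial
  have h2 := cnt_hitT n a hpos (T := T) (Nat.factorial_dvd_factorial h)
  have h3 := cnt_hitT n a hpos (T := T') dvd_rfl
  have h4 : (0 : ℝ) < T'.factorial := by exact_mod_cast Nat.factorial_pos T'
  have h5 : (cnt (hitT n a T) T'.factorial : ℝ) ≤ cnt (hitT n a T') T'.factorial := by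
    exact_mod_cast h1
  rw [h2, h3] at h5
  exact le_of_mul_le_mul_right h5 h4

theorem del_le_one (T : ℕ) : del n a T ≤ 1 := by
  unfold del
  rw [div_le_one (by exact_mod_cast Nat.factorial_pos T)]
  exact_mod_cast cnt_le _ _

theorem del_nonneg (T : ℕ) : 0 ≤ del n a T := by
  unfold del; positivity

/-- the limit of the densities -/
noncomputable def dinf : ℝ := ⨆ T, del n a T

theorem tendsto_del (hpos : ∀ i, 0 < n i) : Tendsto (del n a) atTop (𝓝 (dinf n a)) :=
  tendsto_atTop_ciSup (del_mono n a hpos) ⟨1, by rintro _ ⟨T, rfl⟩; exact del_le_one n a T⟩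

theorem del_le_dinf (T : ℕ) : del n a T ≤ dinf n a :=
  le_ciSup (f := del n a) ⟨1, by rintro _ ⟨T, rfl⟩; exact del_le_one n a T⟩ T

/-- the new elements covered by classes with moduli between `T` and `x / T!` -/
theorem middle_bound (hpos : ∀ i, 0 < n i) (K : ℕ) (F : Finset ℕ) (T x : ℕ) (hTx : T ≤ x)
    (hF : ∀ i ∈ F, n i ≤ x / T.factorial ∧ (n i).divisors.card ≤ K) :
    (cnt (fun m => ¬ hitT n a T m ∧ ∃ i ∈ F, m ≡ a i [ZMOD n i])
      (T.factorial * (x / T.factorial + 1)) : ℝ) ≤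
      2 * K ^ 2 * (x + T.factorial) * (dinf n a - del n a T) := by
  classical
  set Q := T.factorial with hQdef
  have hQ : 0 < Q := Nat.factorial_pos T
  set X := x / Q + 1 with hX
  have hFx : ∀ i ∈ F, n i ≤ x := fun i hi => (hF i hi).1.trans (Nat.div_le_self _ _)
  have h1 := rel_bound F n a (fun i _ => hpos i) K (fun i hi => (hF i hi).2)
    (L := x.factorial) (Nat.factorial_pos x) (fun i hi => Nat.dvd_factorial (hpos i) (hFx i hi)) X
    (fun i hi => (hF i hi).1.trans (Nat.le_succ _)) hQ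
    ((Finset.Ico (0 : ℤ) Q).filter (fun b => ¬ hitT n a T b)) (Finset.filter_subset _ _)
  have hQ' : (0 : ℤ) < Q := by exact_mod_cast hQ
  have key : ∀ Z : ℕ, (Finset.Ico (0 : ℤ) Z).filter (fun m =>
      m % (Q : ℤ) ∈ (Finset.Ico (0 : ℤ) Q).filter (fun b => ¬ hitT n a T b) ∧
        ∃ i ∈ F, m ≡ a i [ZMOD n i]) =
      (Finset.Ico (0 : ℤ) Z).filter (fun m => ¬ hitT n a T m ∧ ∃ i ∈ F, m ≡ a i [ZMOD n i]) := by
    intro Z
    apply Finset.filter_congr
    intro m _
    rw [Finset.mem_filter]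
    have h2 : hitT n a T (m % (Q : ℤ)) ↔ hitT n a T m := by
      have h3 := hitT_period n a hpos (T := T) (q := Q) dvd_rfl (m % (Q : ℤ)) (m / (Q : ℤ))
      rw [Int.emod_add_mul_ediv] at h3
      exact h3.symm
    rw [h2]
    have h4 : m % (Q : ℤ) ∈ Finset.Ico (0 : ℤ) Q :=
      Finset.mem_Ico.2 ⟨Int.emod_nonneg _ hQ'.ne', Int.emod_lt_of_pos _ hQ'⟩
    tauto
  rw [key, key, ← cnt_eq, ← cnt_eq] at h1
  have h2 := cnt_diff (P := hitT n a T) (R := fun m => ∃ i ∈ F, m ≡ a i [ZMOD n i])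
    (S := hitT n a x) (fun m hm => hitT_mono n a hTx hm)
    (fun m ⟨i, hi, hm⟩ => ⟨i, hFx i hi, hm⟩) (Q * x.factorial)
  have h3 : (cnt (fun m => ¬ hitT n a T m ∧ ∃ i ∈ F, m ≡ a i [ZMOD n i])
      (Q * x.factorial) : ℝ) ≤ (del n a x - del n a T) * (Q * x.factorial) := by
    have h4 := cnt_hitT n a hpos (T := T) (L := Q * x.factorial) (Dvd.intro _ rfl)
    have h5 := cnt_hitT n a hpos (T := x) (L := Q * x.factorial) (Dvd.intro_left _ rfl)
    have h6 : (cnt (fun m => ¬ hitT n a T m ∧ ∃ i ∈ F, m ≡ a i [ZMOD n i])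
      (Q * x.factorial) : ℝ) + cnt (hitT n a T) (Q * x.factorial) ≤
      cnt (hitT n a x) (Q * x.factorial) := by exact_mod_cast h2
    rw [h4, h5] at h6
    push_cast at h6 ⊢
    linarith
  have hxf : (0 : ℝ) < x.factorial := by exact_mod_cast Nat.factorial_pos x
  have h7 : (cnt (fun m => ¬ hitT n a T m ∧ ∃ i ∈ F, m ≡ a i [ZMOD n i]) (Q * X) : ℝ) ≤
      2 * K ^ 2 * X * ((del n a x - del n a T) * Q) := by
    have h8 : (cnt (fun m => ¬ hitT n a T m ∧ ∃ i ∈ F, m ≡ a i [ZMOD n i]) (Q * X) : ℝ) *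
        x.factorial ≤ 2 * K ^ 2 * X * ((del n a x - del n a T) * Q) * x.factorial := by
      refine h1.trans ?_
      calc _ ≤ 2 * (K : ℝ) ^ 2 * X * ((del n a x - del n a T) * (Q * x.factorial)) :=
            mul_le_mul_of_nonneg_left h3 (by positivity)
        _ = _ := by ring
    exact le_of_mul_le_mul_right h8 hxf
  refine h7.trans ?_
  have h9 : (X : ℝ) * Q ≤ x + Q := by
    have h10 : X * Q ≤ x + Q := by
      rw [hX, add_mul, one_mul]
      have := Nat.div_mul_le_self x Q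
      omega
    exact_mod_cast h10
  have h10 : del n a x - del n a T ≤ dinf n a - del n a T := by
    have := del_le_dinf n a x
    linarith
  have h11 : 0 ≤ dinf n a - del n a T := by
    have := del_le_dinf n a T
    linarith
  calc 2 * (K : ℝ) ^ 2 * X * ((del n a x - del n a T) * Q)
      ≤ 2 * (K : ℝ) ^ 2 * X * ((dinf n a - del n a T) * Q) := by
        apply mul_le_mul_of_nonneg_left _ (by positivity)
        exact mul_le_mul_of_nonneg_right h10 (by positivity)
    _ = 2 * (K : ℝ) ^ 2 * (dinf n a - del n a T) * (X * Q) := by ring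
    _ ≤ 2 * (K : ℝ) ^ 2 * (dinf n a - del n a T) * (x + Q) := by
        apply mul_le_mul_of_nonneg_left h9 (by positivity)
    _ = _ := by ring

end

end Pool.Agent.H63LD
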