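import Mathlib

/-! # Natural density implies logarithmic density -/

open Finset Filter Topology

namespace Pool.Agent.H63LD

theorem icc_succ (x : ℕ) : Finset.Icc 1 (x + 1) = insert (x + 1) (Finset.Icc 1 x) := by
  ext m
  simp only [Finset.mem_Icc, Finset.mem_insert]
  omega

theorem harm_ratio : Tendsto (fun x : ℕ => (∑ m ∈ Finset.range (x + 1), (1 : ℝ) / (m + 1)) /
    Real.log x) atTop (𝓝 1) := by
  have hH : ∀ x : ℕ, (∑ m ∈ Finset.range (x + 1), (1 : ℝ) / (m + 1)) = (harmonic (x + 1) : ℝ) := by
    intro x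
    rw [harmonic]
    push_cast
    exact Finset.sum_congr rfl fun m _ => one_div _
  have hlog : Tendsto (fun x : ℕ => Real.log (x : ℝ)) atTop atTop :=
    Real.tendsto_log_atTop.comp tendsto_natCast_atTop_atTop
  have h1 : Tendsto (fun x : ℕ => (1 : ℝ) + 2 / Real.log x) atTop (𝓝 (1 + 0)) :=
    tendsto_const_nhds.add (hlog.const_div_atTop 2)
  rw [add_zero] at h1
  refine tendsto_of_tendsto_of_tendsto_of_le_of_le' tendsto_const_nhds h1 ?_ ?_
  · filter_upwards [hlog.eventually_gt_atTop 0, eventually_ge_atTop 1] with x hx hx1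
    rw [hH, le_div_iff₀ hx, one_mul]
    have h2 := log_add_one_le_harmonic (x + 1)
    refine le_trans (Real.log_le_log (by exact_mod_cast hx1) ?_) h2
    push_cast; linarith
  · filter_upwards [hlog.eventually_gt_atTop 0, eventually_ge_atTop 1] with x hx hx1
    rw [hH, div_le_iff₀ hx]
    have h2 := harmonic_le_one_add_log (x + 1)
    have hx1' : (1 : ℝ) ≤ x := by exact_mod_cast hx1
    have h3 : Real.log ((x + 1 : ℕ) : ℝ) ≤ Real.log x + 1 := by
      have h4 : ((x + 1 : ℕ) : ℝ) ≤ x * 2 := by push_cast; linarith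
      calc Real.log ((x + 1 : ℕ) : ℝ) ≤ Real.log (x * 2) :=
            Real.log_le_log (by positivity) h4
        _ = Real.log x + Real.log 2 := Real.log_mul (by positivity) (by norm_num)
        _ ≤ Real.log x + 1 := by
            have := Real.log_two_lt_d9
            linarith
    have h5 : (1 + 2 / Real.log x) * Real.log x = Real.log x + 2 := by
      field_simp
    rw [h5]
    linarith

open scoped Classical in
theorem log_of_nat (A : Set ℕ) (L : ℝ)
    (h : Tendsto (fun x : ℕ => (((Finset.Icc 1 x).filter (fun m => m ∈ A)).card : ℝ) / x)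
      atTop (𝓝 L)) :
    Tendsto (fun x : ℕ => (∑ m ∈ Finset.Icc 1 x,
      Set.indicator A (fun m : ℕ => (1 : ℝ) / (m : ℝ)) m) / Real.log (x : ℝ)) atTop (𝓝 L) := by
  set c : ℕ → ℝ := fun x => (((Finset.Icc 1 x).filter (fun m => m ∈ A)).card : ℝ) with hc
  have hcs : ∀ x : ℕ, c (x + 1) = c x + (if x + 1 ∈ A then 1 else 0) := by
    intro x
    rw [hc]
    simp only
    rw [icc_succ, Finset.filter_insert]
    split_ifs with h1
    · rw [Finset.card_insert_of_notMem (by simp)]
      push_cast; ring
    · rw [add_zero]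
  have hid : ∀ x : ℕ, ∑ m ∈ Finset.Icc 1 x,
      Set.indicator A (fun m : ℕ => (1 : ℝ) / (m : ℝ)) m =
      c x / (x + 1) + ∑ m ∈ Finset.range (x + 1), c m / m * (1 / (m + 1)) := by
    intro x
    induction x with
    | zero => simp [hc]
    | succ x ih =>
      rw [icc_succ, Finset.sum_insert (by simp), ih, Finset.sum_range_succ _ (x + 1), hcs x]
      have hx1 : ((x : ℝ) + 1) ≠ 0 := by positivity
      have hx2 : ((x : ℝ) + 1 + 1) ≠ 0 := by positivity
      by_cases h1 : x + 1 ∈ A
      · rw [Set.indicator_of_mem h1, if_pos h1]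
        push_cast
        field_simp
        ring
      · rw [Set.indicator_of_notMem h1, if_neg h1]
        push_cast
        field_simp
        ring
  set H : ℕ → ℝ := fun x => ∑ m ∈ Finset.range x, (1 : ℝ) / (m + 1) with hH
  have hlog : Tendsto (fun x : ℕ => Real.log (x : ℝ)) atTop atTop :=
    Real.tendsto_log_atTop.comp tendsto_natCast_atTop_atTop
  have hHtop : Tendsto H atTop atTop := Real.tendsto_sum_range_one_div_nat_succ_atTop
  have hlit : (fun x : ℕ => ∑ m ∈ Finset.range x, (c m / m - L) * (1 / ((m : ℝ) + 1)))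
      =o[atTop] H := by
    refine Asymptotics.IsLittleO.sum_range ?_ (fun m => by positivity) hHtop
    have h1 : Tendsto (fun m : ℕ => c m / m - L) atTop (𝓝 0) := by
      have := h.sub_const L
      rwa [sub_self] at this
    have h2 := ((Asymptotics.isLittleO_one_iff ℝ).2 h1).mul_isBigO
      (Asymptotics.isBigO_refl (fun m : ℕ => 1 / ((m : ℝ) + 1)) atTop)
    simpa using h2
  have h3 : Tendsto (fun x : ℕ =>
      (∑ m ∈ Finset.range (x + 1), (c m / m - L) * (1 / ((m : ℝ) + 1))) / H (x + 1))
      atTop (𝓝 0) := (hlit.tendsto_div_nhds_zero).comp (tendsto_add_atTop_nat 1)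
  have h4 := h3.mul harm_ratio
  rw [zero_mul] at h4
  have h5 : Tendsto (fun x : ℕ => c x / (x + 1) / Real.log x) atTop (𝓝 0) := by
    refine squeeze_zero' (g := fun x : ℕ => 1 / Real.log x) ?_ ?_ (hlog.const_div_atTop 1)
    · filter_upwards [hlog.eventually_gt_atTop 0] with x hx
      exact div_nonneg (by positivity) hx.le
    · filter_upwards [hlog.eventually_gt_atTop 0] with x hx
      refine div_le_div_of_nonneg_right ?_ hx.le
      rw [div_le_one (by positivity)]
      have h6 : ((Finset.Icc 1 x).filter (fun m => m ∈ A)).card ≤ x := by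
        have := Finset.card_filter_le (Finset.Icc 1 x) (fun m => m ∈ A)
        simpa using this
      have h7 : c x ≤ x := by
        rw [hc]
        simp only
        exact_mod_cast h6
      linarith
  have h6 := (h5.add (h4.add (harm_ratio.const_mul L)))
  rw [zero_add, zero_add, mul_one] at h6
  refine h6.congr' ?_
  filter_upwards [hlog.eventually_gt_atTop 0,
    (hHtop.comp (tendsto_add_atTop_nat 1)).eventually_gt_atTop 0] with x hx hHx
  have hHx' : H (x + 1) ≠ 0 := ne_of_gt hHx
  have h7 : (∑ m ∈ Finset.range (x + 1), (1 : ℝ) / (m + 1)) = H (x + 1) := rfl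
  rw [hid, h7]
  have h8 : ∑ m ∈ Finset.range (x + 1), (c m / m - L) * (1 / ((m : ℝ) + 1)) =
      ∑ m ∈ Finset.range (x + 1), c m / m * (1 / ((m : ℝ) + 1)) - L * H (x + 1) := by
    rw [hH]
    simp only
    rw [Finset.mul_sum, ← Finset.sum_sub_distrib]
    exact Finset.sum_congr rfl fun m _ => by ring
  rw [h8]
  have hx' : Real.log x ≠ 0 := hx.ne'
  field_simp
  ring

end Pool.Agent.H63LD
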