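import Pool.Agent.H63LD.Dens
import Pool.Agent.H63LD.NatLog

/-! # Natural density for moduli with boundedly many divisors -/

open Finset Filter Topology

namespace Pool.Agent.H63LD

variable (n : ℕ → ℕ) (a : ℕ → ℤ)

open scoped Classical in
/-- number of `m ∈ [1, x]` which are excluded from the set `A` -/
noncomputable def bad (x : ℕ) : ℕ :=
  ((Finset.Icc 1 x).filter (fun m : ℕ => ∃ i, n i ≤ m ∧ (m : ℤ) ≡ a i [ZMOD n i])).card

/-- reciprocal of the modulus if it has more than `K` divisors -/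
noncomputable def rec (K : ℕ) (i : ℕ) : ℝ := if K < (n i).divisors.card then 1 / (n i : ℝ) else 0

theorem rec_nonneg (K i : ℕ) : 0 ≤ rec n K i := by
  unfold rec
  split_ifs <;> positivity

theorem lower (hpos : ∀ i, 0 < n i) (T x : ℕ) :
    del n a T * (x + 1) - T.factorial - T - 1 ≤ bad n a x := by
  classical
  have hq : 0 < T.factorial := Nat.factorial_pos T
  have h1 := cnt_lower hq (hitT_period n a hpos (T := T) dvd_rfl) (x + 1)
  have h2 : (cnt (hitT n a T) T.factorial : ℝ) / T.factorial = del n a T := rfl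
  rw [h2] at h1
  have h3 : cnt (hitT n a T) (x + 1) ≤ (T + 1) + bad n a x := by
    rw [cnt_eq]
    have hsub : (Finset.Ico (0 : ℤ) ((x + 1 : ℕ) : ℤ)).filter (hitT n a T) ⊆
        Finset.Ico (0 : ℤ) ((T + 1 : ℕ) : ℤ) ∪ ((Finset.Icc 1 x).filter
          (fun m : ℕ => ∃ i, n i ≤ m ∧ (m : ℤ) ≡ a i [ZMOD n i])).image (fun m : ℕ => (m : ℤ)) := by
      intro m hm
      rw [Finset.mem_filter, Finset.mem_Ico] at hm
      obtain ⟨⟨h0, hx⟩, i, hi, hmi⟩ := hm
      rw [Finset.mem_union, Finset.mem_Ico, Finset.mem_image]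
      by_cases hT : m < ((T + 1 : ℕ) : ℤ)
      · exact Or.inl ⟨h0, hT⟩
      · right
        push_cast at hT hx
        obtain ⟨k, rfl⟩ := Int.eq_ofNat_of_zero_le h0
        refine ⟨k, ?_, rfl⟩
        rw [Finset.mem_filter, Finset.mem_Icc]
        refine ⟨⟨by omega, by omega⟩, i, by omega, hmi⟩
    refine (Finset.card_le_card hsub).trans ((Finset.card_union_le _ _).trans ?_)
    unfold bad
    have h4 : (Finset.Ico (0 : ℤ) ((T + 1 : ℕ) : ℤ)).card = T + 1 := by simp
    rw [h4]
    exact Nat.add_le_add_left Finset.card_image_le _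
  have h5 : (cnt (hitT n a T) (x + 1) : ℝ) ≤ (T + 1) + bad n a x := by exact_mod_cast h3
  push_cast at h1
  linarith

theorem upper (hn : StrictMono n) (hpos : ∀ i, 0 < n i) (K : ℕ) (hsum : Summable (rec n K))
    (j x : ℕ) (hx : n j ≤ x) :
    (bad n a x : ℝ) ≤ del n a (n j) * (x + 1) + (n j).factorial +
      2 * (x + 1) * (∑' k, rec n K (k + (j + 1))) +
      ((n j).factorial + 1) * ((Finset.Icc 1 x).filter (fun m => m.divisors.card ≤ K)).card +
      2 * K ^ 2 * (x + (n j).factorial) * (dinf n a - del n a (n j)) := by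
  classical
  set T := n j with hT
  set Q := T.factorial with hQ
  have hQpos : 0 < Q := Nat.factorial_pos T
  set Ib := (Finset.range (x + 1)).filter (fun i => j < i ∧ n i ≤ x ∧ K < (n i).divisors.card)
    with hIb
  set Il := (Finset.range (x + 1)).filter
    (fun i => x / Q < n i ∧ n i ≤ x ∧ (n i).divisors.card ≤ K) with hIl
  set F := (Finset.range (x + 1)).filter
    (fun i => n i ≤ x / Q ∧ (n i).divisors.card ≤ K) with hF
  set W := Finset.Ico (0 : ℤ) ((x + 1 : ℕ) : ℤ) with hW
  set Z := Finset.Ico (0 : ℤ) ((Q * (x / Q + 1) : ℕ) : ℤ) with hZ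
  have hsub : ((Finset.Icc 1 x).filter
      (fun m : ℕ => ∃ i, n i ≤ m ∧ (m : ℤ) ≡ a i [ZMOD n i])).image (fun m : ℕ => (m : ℤ)) ⊆
      (W.filter (hitT n a T) ∪ Ib.biUnion (fun i => W.filter (fun m => m ≡ a i [ZMOD n i]))) ∪
      (Il.biUnion (fun i => W.filter (fun m => m ≡ a i [ZMOD n i])) ∪
      Z.filter (fun m => ¬ hitT n a T m ∧ ∃ i ∈ F, m ≡ a i [ZMOD n i])) := by
    intro z hz
    rw [Finset.mem_image] at hz
    obtain ⟨m, hm, rfl⟩ := hz
    rw [Finset.mem_filter, Finset.mem_Icc] at hm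
    obtain ⟨⟨hm1, hm2⟩, i, hi, hmi⟩ := hm
    have hWm : (m : ℤ) ∈ W := by
      rw [hW, Finset.mem_Ico]; push_cast; omega
    have hix : i ∈ Finset.range (x + 1) := by
      rw [Finset.mem_range]
      have := hn.le_apply (x := i)
      omega
    have hnx : n i ≤ x := hi.trans hm2
    by_cases h1 : hitT n a T m
    · rw [Finset.mem_union, Finset.mem_union]
      exact Or.inl (Or.inl (Finset.mem_filter.2 ⟨hWm, h1⟩))
    · by_cases h2 : K < (n i).divisors.card
      · have hji : j < i := by
          by_contra hcon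
          push Not at hcon
          exact h1 ⟨i, hn.monotone hcon, hmi⟩
        rw [Finset.mem_union, Finset.mem_union]
        refine Or.inl (Or.inr ?_)
        rw [Finset.mem_biUnion]
        exact ⟨i, Finset.mem_filter.2 ⟨hix, hji, hnx, h2⟩, Finset.mem_filter.2 ⟨hWm, hmi⟩⟩
      · push Not at h2
        rw [Finset.mem_union, Finset.mem_union (s := Il.biUnion _)]
        right
        by_cases h3 : x / Q < n i
        · left
          rw [Finset.mem_biUnion]
          exact ⟨i, Finset.mem_filter.2 ⟨hix, h3, hnx, h2⟩, Finset.mem_filter.2 ⟨hWm, hmi⟩⟩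
        · right
          push Not at h3
          rw [Finset.mem_filter]
          refine ⟨?_, h1, i, Finset.mem_filter.2 ⟨hix, h3, h2⟩, hmi⟩
          rw [hZ, Finset.mem_Ico]
          have h4 : x < Q * (x / Q + 1) := by
            have := Nat.div_add_mod x Q
            have := Nat.mod_lt x hQpos
            rw [mul_add, mul_one]; omega
          have h5 : m < Q * (x / Q + 1) := by omega
          refine ⟨by omega, by exact_mod_cast h5⟩
  have hcard : (bad n a x : ℝ) ≤ ((W.filter (hitT n a T)).card : ℝ) +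
      ∑ i ∈ Ib, ((W.filter (fun m => m ≡ a i [ZMOD n i])).card : ℝ) +
      (∑ i ∈ Il, ((W.filter (fun m => m ≡ a i [ZMOD n i])).card : ℝ) +
      ((Z.filter (fun m => ¬ hitT n a T m ∧ ∃ i ∈ F, m ≡ a i [ZMOD n i])).card : ℝ)) := by
    have h1 : bad n a x = (((Finset.Icc 1 x).filter
      (fun m : ℕ => ∃ i, n i ≤ m ∧ (m : ℤ) ≡ a i [ZMOD n i])).image (fun m : ℕ => (m : ℤ))).card := by
      unfold bad
      rw [Finset.card_image_of_injective _ Nat.cast_injective]
    have h2 : bad n a x ≤ (W.filter (hitT n a T)).card +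
      ∑ i ∈ Ib, (W.filter (fun m => m ≡ a i [ZMOD n i])).card +
      (∑ i ∈ Il, (W.filter (fun m => m ≡ a i [ZMOD n i])).card +
      (Z.filter (fun m => ¬ hitT n a T m ∧ ∃ i ∈ F, m ≡ a i [ZMOD n i])).card) := by
      rw [h1]
      refine (Finset.card_le_card hsub).trans ?_
      refine (Finset.card_union_le _ _).trans ?_
      refine Nat.add_le_add ?_ ?_
      · exact (Finset.card_union_le _ _).trans
          (Nat.add_le_add_left Finset.card_biUnion_le _)
      · exact (Finset.card_union_le _ _).trans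
          (Nat.add_le_add_right Finset.card_biUnion_le _)
    exact_mod_cast h2
  have hcls : ∀ i, ((W.filter (fun m => m ≡ a i [ZMOD n i])).card : ℝ) ≤
      (x + 1) / n i + 1 := by
    intro i
    have h := card_class_le 0 (x + 1) (hpos i) (a i)
    rw [zero_add] at h
    push_cast at h ⊢
    exact h
  have hA1 : ((W.filter (hitT n a T)).card : ℝ) ≤ del n a T * (x + 1) + Q := by
    have h := cnt_upper hQpos (hitT_period n a hpos (T := T) dvd_rfl) (x + 1)
    rw [cnt_eq] at h
    push_cast at h ⊢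
    exact h
  have hA2 : ∑ i ∈ Ib, ((W.filter (fun m => m ≡ a i [ZMOD n i])).card : ℝ) ≤
      2 * (x + 1) * (∑' k, rec n K (k + (j + 1))) := by
    have h1 : ∀ i ∈ Ib, ((W.filter (fun m => m ≡ a i [ZMOD n i])).card : ℝ) ≤
        2 * (x + 1) * rec n K i := by
      intro i hi
      have hi' := (Finset.mem_filter.1 hi).2
      refine (hcls i).trans ?_
      unfold rec
      rw [if_pos hi'.2.2]
      have h2 : (0 : ℝ) < n i := by exact_mod_cast hpos i
      have h3 : (n i : ℝ) ≤ x := by exact_mod_cast hi'.2.1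
      have h4 : (1 : ℝ) ≤ (x + 1) / n i := by rw [le_div_iff₀ h2]; linarith
      have h5 : 2 * ((x : ℝ) + 1) * (1 / n i) = (x + 1) / n i + (x + 1) / n i := by ring
      rw [h5]; linarith
    refine (Finset.sum_le_sum h1).trans ?_
    rw [← Finset.mul_sum]
    apply mul_le_mul_of_nonneg_left _ (by positivity)
    have hinj : Set.InjOn (fun i => i - (j + 1)) (Ib : Set ℕ) := by
      intro i hi i' hi' he
      have h2 := (Finset.mem_filter.1 hi).2.1
      have h3 := (Finset.mem_filter.1 hi').2.1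
      simp only at he
      omega
    have h2 : ∑ i ∈ Ib, rec n K i =
        ∑ k ∈ Ib.image (fun i => i - (j + 1)), rec n K (k + (j + 1)) := by
      rw [Finset.sum_image hinj]
      refine Finset.sum_congr rfl fun i hi => ?_
      have h3 := (Finset.mem_filter.1 hi).2.1
      congr 1
      omega
    rw [h2]
    exact ((summable_nat_add_iff (j + 1)).2 hsum).sum_le_tsum _ (fun k _ => rec_nonneg n K _)
  have hA3 : ∑ i ∈ Il, ((W.filter (fun m => m ≡ a i [ZMOD n i])).card : ℝ) ≤
      (Q + 1) * ((Finset.Icc 1 x).filter (fun m => m.divisors.card ≤ K)).card := by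
    have h1 : ∀ i ∈ Il, ((W.filter (fun m => m ≡ a i [ZMOD n i])).card : ℝ) ≤ Q + 1 := by
      intro i hi
      have hi' := (Finset.mem_filter.1 hi).2
      refine (hcls i).trans ?_
      have h2 : (0 : ℝ) < n i := by exact_mod_cast hpos i
      have h3 : x < n i * Q := (Nat.div_lt_iff_lt_mul hQpos).1 hi'.1
      have h4 : ((x : ℝ) + 1) ≤ Q * n i := by
        have : x + 1 ≤ Q * n i := by rw [mul_comm]; omega
        exact_mod_cast this
      have h5 : ((x : ℝ) + 1) / n i ≤ Q := by rw [div_le_iff₀ h2]; exact h4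
      linarith
    refine (Finset.sum_le_sum h1).trans ?_
    rw [Finset.sum_const, nsmul_eq_mul, mul_comm]
    apply mul_le_mul_of_nonneg_left _ (by positivity)
    have h2 : Il.card ≤ ((Finset.Icc 1 x).filter (fun m => m.divisors.card ≤ K)).card := by
      refine Finset.card_le_card_of_injOn n ?_ (hn.injective.injOn)
      intro i hi
      have hi' := (Finset.mem_filter.1 hi).2
      exact Finset.mem_coe.2 (Finset.mem_filter.2
        ⟨Finset.mem_Icc.2 ⟨hpos i, hi'.2.1⟩, hi'.2.2⟩)
    exact_mod_cast h2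
  have hA4 : ((Z.filter (fun m => ¬ hitT n a T m ∧ ∃ i ∈ F, m ≡ a i [ZMOD n i])).card : ℝ) ≤
      2 * K ^ 2 * (x + Q) * (dinf n a - del n a T) := by
    have h := middle_bound n a hpos K F T x hx (fun i hi => (Finset.mem_filter.1 hi).2)
    rw [cnt_eq] at h
    exact h
  linarith

theorem tendsto_bad (hn : StrictMono n) (hpos : ∀ i, 0 < n i) (K : ℕ)
    (hsum : Summable (rec n K)) :
    Tendsto (fun x : ℕ => (bad n a x : ℝ) / x) atTop (𝓝 (dinf n a)) := by
  have hinv : Tendsto (fun x : ℕ => ((x : ℝ))⁻¹) atTop (𝓝 0) := tendsto_inv_atTop_nhds_zero_nat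
  have hnj : Tendsto n atTop atTop := hn.tendsto_atTop
  have hdel := (tendsto_del n a hpos).comp hnj
  rw [tendsto_order]
  constructor
  · intro b hb
    obtain ⟨j, hj⟩ := (hdel.eventually (lt_mem_nhds hb)).exists
    simp only [Function.comp] at hj
    have h1 : Tendsto (fun x : ℕ => del n a (n j) * (1 + ((x : ℝ))⁻¹) -
        ((n j).factorial + n j + 1) * ((x : ℝ))⁻¹) atTop
        (𝓝 (del n a (n j) * (1 + 0) - ((n j).factorial + n j + 1) * 0)) :=
      ((hinv.const_add 1).const_mul _).sub (hinv.const_mul _)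
    rw [add_zero, mul_one, mul_zero, sub_zero] at h1
    filter_upwards [h1.eventually (lt_mem_nhds hj), eventually_ge_atTop 1] with x hx hx1
    refine lt_of_lt_of_le hx ?_
    have hx0 : (0 : ℝ) < x := by exact_mod_cast hx1
    rw [le_div_iff₀ hx0]
    have h2 := lower n a hpos (n j) x
    have h3 : (del n a (n j) * (1 + ((x : ℝ))⁻¹) -
        ((n j).factorial + n j + 1) * ((x : ℝ))⁻¹) * x =
        del n a (n j) * (x + 1) - (n j).factorial - n j - 1 := by
      field_simp
      ring
    rw [h3]; exact h2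
  · intro b hb
    have htail := tendsto_sum_nat_add (rec n K)
    have htail' : Tendsto (fun j => ∑' k, rec n K (k + (j + 1))) atTop (𝓝 0) :=
      htail.comp (tendsto_add_atTop_nat 1)
    have h0 : Tendsto (fun j => del n a (n j) + 2 * (∑' k, rec n K (k + (j + 1))) +
        2 * K ^ 2 * (dinf n a - del n a (n j))) atTop
        (𝓝 (dinf n a + 2 * 0 + 2 * K ^ 2 * (dinf n a - dinf n a))) :=
      (hdel.add (htail'.const_mul 2)).add ((hdel.const_sub _).const_mul _)
    rw [mul_zero, add_zero, sub_self, mul_zero, add_zero] at h0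
    obtain ⟨j, hj⟩ := (h0.eventually (gt_mem_nhds hb)).exists
    have hfew := few K
    have h1 : Tendsto (fun x : ℕ => del n a (n j) * (1 + ((x : ℝ))⁻¹) +
        (n j).factorial * ((x : ℝ))⁻¹ +
        2 * (1 + ((x : ℝ))⁻¹) * (∑' k, rec n K (k + (j + 1))) +
        ((n j).factorial + 1) *
          ((((Finset.Icc 1 x).filter (fun m => m.divisors.card ≤ K)).card : ℝ) / x) +
        2 * K ^ 2 * (1 + (n j).factorial * ((x : ℝ))⁻¹) * (dinf n a - del n a (n j))) atTop
        (𝓝 (del n a (n j) * (1 + 0) + (n j).factorial * 0 +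
        2 * (1 + 0) * (∑' k, rec n K (k + (j + 1))) + ((n j).factorial + 1) * 0 +
        2 * K ^ 2 * (1 + (n j).factorial * 0) * (dinf n a - del n a (n j)))) :=
      (((((hinv.const_add 1).const_mul _).add (hinv.const_mul _)).add
        (((hinv.const_add 1).const_mul 2).mul_const _)).add (hfew.const_mul _)).add
        ((((hinv.const_mul _).const_add 1).const_mul _).mul_const _)
    simp only [add_zero, mul_one, mul_zero] at h1
    filter_upwards [h1.eventually (gt_mem_nhds hj), eventually_ge_atTop (n j),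
      eventually_ge_atTop 1] with x hx hxj hx1
    refine lt_of_le_of_lt ?_ hx
    have hx0 : (0 : ℝ) < x := by exact_mod_cast hx1
    rw [div_le_iff₀ hx0]
    refine (upper n a hn hpos K hsum j x hxj).trans (le_of_eq ?_)
    field_simp

open scoped Classical in
theorem natural_density (hn : StrictMono n) (hpos : ∀ i, 0 < n i) (K : ℕ)
    (hsum : Summable (rec n K)) :
    Tendsto (fun x : ℕ => (((Finset.Icc 1 x).filter (fun m : ℕ =>
      m ∈ {m : ℕ | ∀ i, m < n i ∨ ¬ ((m : ℤ) ≡ a i [ZMOD (n i : ℤ)])})).card : ℝ) / x)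
      atTop (𝓝 (1 - dinf n a)) := by
  have h := (tendsto_bad n a hn hpos K hsum).const_sub 1
  refine h.congr' ?_
  filter_upwards [eventually_ge_atTop 1] with x hx1
  have hx0 : (x : ℝ) ≠ 0 := by
    have : (0 : ℝ) < x := by exact_mod_cast hx1
    exact this.ne'
  have h1 : ((Finset.Icc 1 x).filter (fun m : ℕ =>
      m ∈ {m : ℕ | ∀ i, m < n i ∨ ¬ ((m : ℤ) ≡ a i [ZMOD (n i : ℤ)])})).card + bad n a x = x := by
    have h2 := Finset.card_filter_add_card_filter_not (s := Finset.Icc 1 x)
      (fun m : ℕ => m ∈ {m : ℕ | ∀ i, m < n i ∨ ¬ ((m : ℤ) ≡ a i [ZMOD (n i : ℤ)])})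
    have h3 : (Finset.Icc 1 x).card = x := by simp
    rw [h3] at h2
    have h4 : (Finset.Icc 1 x).filter (fun m : ℕ =>
        ¬ m ∈ {m : ℕ | ∀ i, m < n i ∨ ¬ ((m : ℤ) ≡ a i [ZMOD (n i : ℤ)])}) =
        (Finset.Icc 1 x).filter (fun m : ℕ => ∃ i, n i ≤ m ∧ (m : ℤ) ≡ a i [ZMOD n i]) := by
      apply Finset.filter_congr
      intro m _
      simp only [Set.mem_setOf_eq]
      push Not
      rfl
    rw [h4] at h2
    exact h2
  have h5 : ((((Finset.Icc 1 x).filter (fun m : ℕ =>
      m ∈ {m : ℕ | ∀ i, m < n i ∨ ¬ ((m : ℤ) ≡ a i [ZMOD (n i : ℤ)])})).card : ℝ)) +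
      bad n a x = x := by exact_mod_cast h1
  rw [eq_div_iff hx0, sub_mul, div_mul_cancel₀ _ hx0, one_mul]
  exact sub_eq_of_eq_add h5.symm

end Pool.Agent.H63LD
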