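import Mathlib

/-! # Packing weights on a finite family of residue classes

For a finite family of residue classes `a i mod n i` there are weights `y i ≥ 0` such that the total
weight of the classes inside any class `D` is at most `1 / (modulus of D)`, and each class of the
family lies in a class for which equality holds. -/

open Finset

namespace Pool.Agent.H63LD

variable {ι : Type*} [DecidableEq ι]

/-- total weight of the classes contained in the class `r mod d` -/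
noncomputable def wt (F : Finset ι) (n : ι → ℕ) (a : ι → ℤ) (y : ι → ℝ) (d : ℕ) (r : ℤ) : ℝ := by
  classical
  exact ∑ j ∈ F.filter (fun j => d ∣ n j ∧ a j ≡ r [ZMOD d]), y j

theorem wt_congr {F : Finset ι} {n : ι → ℕ} {a : ι → ℤ} {y : ι → ℝ} {d : ℕ} {r s : ℤ}
    (h : r ≡ s [ZMOD d]) : wt F n a y d r = wt F n a y d s := by
  classical
  unfold wt
  congr 1
  apply Finset.filter_congr
  intro j _
  constructor
  · rintro ⟨h1, h2⟩; exact ⟨h1, h2.trans h⟩
  · rintro ⟨h1, h2⟩; exact ⟨h1, h2.trans h.symm⟩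

theorem exists_packing (F : Finset ι) (n : ι → ℕ) (a : ι → ℤ) (hn : ∀ i ∈ F, 0 < n i) :
    ∃ y : ι → ℝ, (∀ i, 0 ≤ y i) ∧ (∀ i, i ∉ F → y i = 0) ∧
      (∀ (d : ℕ), 0 < d → ∀ r : ℤ, wt F n a y d r ≤ 1 / d) ∧
      (∀ i ∈ F, ∃ d : ℕ, d ∣ n i ∧ wt F n a y d (a i) = 1 / d) := by
  classical
  induction F using Finset.induction_on with
  | empty =>
    refine ⟨fun _ => 0, fun _ => le_rfl, fun _ _ => rfl, ?_, by simp⟩
    intro d hd r
    simp [wt]
  | insert i0 F hi0 ih =>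
    obtain ⟨y, hy0, hyF, hyP, hyT⟩ := ih (fun i hi => hn i (Finset.mem_insert_of_mem hi))
    have hn0 : 0 < n i0 := hn i0 (Finset.mem_insert_self _ _)
    obtain ⟨d0, hd0, hmin⟩ := Finset.exists_min_image (n i0).divisors
      (fun d => (1 : ℝ) / d - wt F n a y d (a i0)) ⟨1, by simp [hn0.ne']⟩
    set t : ℝ := (1 : ℝ) / d0 - wt F n a y d0 (a i0) with ht
    have hd0' : 0 < d0 := Nat.pos_of_mem_divisors hd0
    have ht0 : 0 ≤ t := by
      have := hyP d0 hd0' (a i0)
      rw [ht]; linarith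
    have hne : ∀ j ∈ F, Function.update y i0 t j = y j := by
      intro j hj
      refine Function.update_of_ne (fun h => hi0 ?_) _ _
      rw [← h]; exact hj
    have key : ∀ (d : ℕ) (r : ℤ), wt (insert i0 F) n a (Function.update y i0 t) d r =
        (if d ∣ n i0 ∧ a i0 ≡ r [ZMOD d] then t else 0) + wt F n a y d r := by
      intro d r
      unfold wt
      rw [Finset.filter_insert]
      split_ifs with h
      · rw [Finset.sum_insert (by simp [hi0]), Function.update_self]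
        congr 1
        exact Finset.sum_congr rfl fun j hj => hne j (Finset.mem_of_mem_filter j hj)
      · rw [zero_add]
        exact Finset.sum_congr rfl fun j hj => hne j (Finset.mem_of_mem_filter j hj)
    have hP : ∀ (d : ℕ), 0 < d → ∀ r : ℤ,
        wt (insert i0 F) n a (Function.update y i0 t) d r ≤ 1 / d := by
      intro d hd r
      rw [key]
      split_ifs with h
      · have h1 := hmin d (Nat.mem_divisors.2 ⟨h.1, hn0.ne'⟩)
        have h2 : t ≤ 1 / (d : ℝ) - wt F n a y d (a i0) := h1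
        rw [wt_congr h.2] at h2
        linarith
      · rw [zero_add]; exact hyP d hd r
    refine ⟨Function.update y i0 t, ?_, ?_, hP, ?_⟩
    · intro i
      by_cases hi : i = i0
      · subst hi; rw [Function.update_self]; exact ht0
      · rw [Function.update_of_ne hi]; exact hy0 i
    · intro i hi
      rw [Finset.mem_insert, not_or] at hi
      rw [Function.update_of_ne hi.1]; exact hyF i hi.2
    · intro i hi
      rw [Finset.mem_insert] at hi
      rcases hi with rfl | hi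
      · refine ⟨d0, Nat.dvd_of_mem_divisors hd0, ?_⟩
        rw [key, if_pos ⟨Nat.dvd_of_mem_divisors hd0, Int.ModEq.refl _⟩, ht]
        ring
      · obtain ⟨d, hd, h1⟩ := hyT i hi
        refine ⟨d, hd, le_antisymm (hP d (Nat.pos_of_dvd_of_pos hd
          (hn i (Finset.mem_insert_of_mem hi))) _) ?_⟩
        rw [key, h1]
        split_ifs
        · linarith
        · linarith

/-- number of elements of an interval in a residue class -/
theorem card_class_le (A : ℤ) (X : ℕ) {d : ℕ} (hd : 0 < d) (r : ℤ) :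
    (((Finset.Ico A (A + X)).filter (fun m => m ≡ r [ZMOD d])).card : ℝ) ≤ X / d + 1 := by
  have hd' : (0 : ℤ) < d := by exact_mod_cast hd
  have h := Int.Ico_filter_modEq_card A (A + X) hd' r
  have hdq : (0 : ℚ) < d := by exact_mod_cast hd
  have h3 : ((⌈(((A + X : ℤ) : ℚ) - (r : ℚ)) / ((d : ℤ) : ℚ)⌉ : ℤ) : ℚ) <
      (((A + X : ℤ) : ℚ) - (r : ℚ)) / ((d : ℤ) : ℚ) + 1 := Int.ceil_lt_add_one _
  have h4 : (((A : ℤ) : ℚ) - (r : ℚ)) / ((d : ℤ) : ℚ) ≤
    ((⌈(((A : ℤ) : ℚ) - (r : ℚ)) / ((d : ℤ) : ℚ)⌉ : ℤ) : ℚ) := Int.le_ceil _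
  set c1 : ℤ := ⌈(((A + X : ℤ) : ℚ) - (r : ℚ)) / ((d : ℤ) : ℚ)⌉
  set c0 : ℤ := ⌈(((A : ℤ) : ℚ) - (r : ℚ)) / ((d : ℤ) : ℚ)⌉
  have h5 : ((c1 - c0) * d : ℤ) ≤ X + d := by
    have h6 : (((A + X : ℤ) : ℚ) - (r : ℚ)) / ((d : ℤ) : ℚ) =
        (((A : ℤ) : ℚ) - (r : ℚ)) / ((d : ℤ) : ℚ) + (X : ℚ) / d := by
      push_cast; ring
    rw [h6] at h3
    have h7 : ((c1 : ℚ) - c0) < (X : ℚ) / d + 1 := by linarith
    have h8 : ((c1 : ℚ) - c0) * d < X + d := by
      have := mul_lt_mul_of_pos_right h7 hdq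
      rwa [add_mul, div_mul_cancel₀ _ hdq.ne', one_mul] at this
    have h9 : (((c1 - c0) * d : ℤ) : ℚ) < ((X + d : ℤ) : ℚ) := by push_cast; exact h8
    exact (by exact_mod_cast h9 : ((c1 - c0) * d : ℤ) < X + d).le
  have hdr : (0 : ℝ) < d := by exact_mod_cast hd
  have h10 : ((((Finset.Ico A (A + X)).filter (fun m => m ≡ r [ZMOD d])).card : ℤ) : ℝ) ≤
      X / d + 1 := by
    rw [h]
    have h11 : ((c1 : ℝ) - c0) ≤ X / d + 1 := by
      rw [← sub_nonneg]
      have h12 : ((c1 - c0) * d : ℝ) ≤ X + d := by exact_mod_cast h5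
      have h13 : (X : ℝ) / d + 1 - ((c1 : ℝ) - c0) = (X + d - (c1 - c0) * d) / d := by
        field_simp
      rw [h13]
      exact div_nonneg (by linarith) hdr.le
    push_cast
    exact max_le h11 (by positivity)
  exact_mod_cast h10

theorem card_class_eq {L : ℕ} {d : ℕ} (hd : 0 < d) (h : d ∣ L) (A : ℤ) (r : ℤ) :
    (((Finset.Ico A (A + L)).filter (fun m => m ≡ r [ZMOD d])).card : ℝ) = L / d := by
  have hd' : (0 : ℤ) < d := by exact_mod_cast hd
  obtain ⟨q, rfl⟩ := h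
  have h := Int.Ico_filter_modEq_card A (A + ((d * q : ℕ) : ℤ)) hd' r
  have h6 : (((A + ((d * q : ℕ) : ℤ) : ℤ) : ℚ) - (r : ℚ)) / ((d : ℤ) : ℚ) =
      (((A : ℤ) : ℚ) - (r : ℚ)) / ((d : ℤ) : ℚ) + ((q : ℤ) : ℚ) := by
    have : ((d : ℤ) : ℚ) ≠ 0 := by exact_mod_cast hd.ne'
    field_simp
    push_cast; ring
  rw [h6, Int.ceil_add_intCast] at h
  have h2 : ((Finset.Ico A (A + ((d * q : ℕ) : ℤ))).filter (fun m => m ≡ r [ZMOD d])).card = q := by
    have : (((Finset.Ico A (A + ((d * q : ℕ) : ℤ))).filter (fun m => m ≡ r [ZMOD d])).card : ℤ)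
        = q := by
      rw [h]
      rw [add_sub_cancel_left]
      exact max_eq_left (by positivity)
    exact_mod_cast this
  rw [h2]
  have : (d : ℝ) ≠ 0 := by exact_mod_cast hd.ne'
  push_cast
  field_simp

/-- number of solutions of two congruences over a period -/
theorem card_inter_le {L : ℕ} {m n : ℕ} (hm : 0 < m) (hn : 0 < n) (h1 : m ∣ L) (h2 : n ∣ L)
    (a b : ℤ) :
    (((Finset.Ico (0 : ℤ) L).filter (fun r => r ≡ a [ZMOD m] ∧ r ≡ b [ZMOD n])).card : ℝ) ≤
      if a ≡ b [ZMOD (Nat.gcd m n : ℕ)] then (L : ℝ) * (Nat.gcd m n) / (m * n) else 0 := by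
  classical
  by_cases hne : ((Finset.Ico (0 : ℤ) L).filter
      (fun r => r ≡ a [ZMOD m] ∧ r ≡ b [ZMOD n])).Nonempty
  · obtain ⟨r0, hr0⟩ := hne
    rw [Finset.mem_filter] at hr0
    obtain ⟨_, ha, hb⟩ := hr0
    have hab : a ≡ b [ZMOD (Nat.gcd m n : ℕ)] := by
      have ha' : r0 ≡ a [ZMOD (Nat.gcd m n : ℕ)] :=
        ha.of_dvd (by exact_mod_cast Nat.gcd_dvd_left m n)
      have hb' : r0 ≡ b [ZMOD (Nat.gcd m n : ℕ)] :=
        hb.of_dvd (by exact_mod_cast Nat.gcd_dvd_right m n)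
      exact ha'.symm.trans hb'
    rw [if_pos hab]
    have hl : 0 < Nat.lcm m n := Nat.lcm_pos hm hn
    have hsub : (Finset.Ico (0 : ℤ) L).filter (fun r => r ≡ a [ZMOD m] ∧ r ≡ b [ZMOD n]) ⊆
        (Finset.Ico (0 : ℤ) (0 + L)).filter (fun r => r ≡ r0 [ZMOD (Nat.lcm m n : ℕ)]) := by
      intro r hr
      rw [Finset.mem_filter] at hr ⊢
      rw [zero_add]
      refine ⟨hr.1, ?_⟩
      have h3 : (m : ℤ) ∣ r0 - r := Int.modEq_iff_dvd.1 (hr.2.1.trans ha.symm)
      have h4 : (n : ℤ) ∣ r0 - r := Int.modEq_iff_dvd.1 (hr.2.2.trans hb.symm)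
      rw [Int.modEq_iff_dvd]
      have h5 : ((Nat.lcm m n : ℕ) : ℤ) ∣ r0 - r := by
        rw [Int.natCast_dvd]
        exact Nat.lcm_dvd (Int.natCast_dvd.1 h3) (Int.natCast_dvd.1 h4)
      exact h5
    have h6 := Finset.card_le_card hsub
    have h7 := card_class_eq (L := L) hl (Nat.lcm_dvd h1 h2) 0 r0
    have h8 : (((Finset.Ico (0 : ℤ) L).filter
        (fun r => r ≡ a [ZMOD m] ∧ r ≡ b [ZMOD n])).card : ℝ) ≤ L / (Nat.lcm m n : ℕ) := by
      rw [← h7]; exact_mod_cast h6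
    refine h8.trans (le_of_eq ?_)
    have h9 : (Nat.gcd m n : ℝ) * (Nat.lcm m n : ℝ) = m * n := by
      exact_mod_cast Nat.gcd_mul_lcm m n
    have h10 : (Nat.lcm m n : ℝ) ≠ 0 := by exact_mod_cast hl.ne'
    have h11 : (Nat.gcd m n : ℝ) ≠ 0 := by
      exact_mod_cast (Nat.gcd_pos_of_pos_left n hm).ne'
    rw [← h9]
    field_simp
  · rw [Finset.not_nonempty_iff_eq_empty] at hne
    rw [hne]
    split_ifs
    · simp; positivity
    · simp

end Pool.Agent.H63LD
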