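import Pool.Agent.H63LD.Cover

/-! # The covering inequality relative to residue classes mod `Q` -/

open Finset

namespace Pool.Agent.H63LD

variable {ι : Type*} [DecidableEq ι]

theorem fiber_count {Q : ℕ} (hQ : 0 < Q) (B : Finset ℤ) (hB : B ⊆ Finset.Ico (0 : ℤ) Q)
    (P : ℤ → Prop) [DecidablePred P] (X : ℕ) :
    (((Finset.Ico (0 : ℤ) ((Q * X : ℕ) : ℤ)).filter (fun m => m % (Q : ℤ) ∈ B ∧ P m))).card =
      ∑ b ∈ B, ((Finset.Ico (0 : ℤ) X).filter (fun t => P (b + Q * t))).card := by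
  classical
  have hQ' : (0 : ℤ) < Q := by exact_mod_cast hQ
  rw [Finset.card_eq_sum_card_fiberwise (f := fun m : ℤ => m % (Q : ℤ)) (t := B)]
  · refine Finset.sum_congr rfl fun b hb => ?_
    have hb' := Finset.mem_Ico.1 (hB hb)
    symm
    refine Finset.card_bij' (fun t _ => b + Q * t) (fun m _ => m / (Q : ℤ)) ?_ ?_ ?_ ?_
    · intro t ht
      rw [Finset.mem_filter, Finset.mem_Ico] at ht
      have h1 : (b + Q * t) % (Q : ℤ) = b := by
        rw [Int.add_mul_emod_self_left]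
        exact Int.emod_eq_of_lt hb'.1 hb'.2
      rw [Finset.mem_filter, Finset.mem_filter, Finset.mem_Ico]
      refine ⟨⟨⟨by nlinarith [ht.1.1], ?_⟩, by rw [h1]; exact hb, ht.2⟩, h1⟩
      have h2 : t + 1 ≤ X := ht.1.2
      push_cast
      nlinarith
    · intro m hm
      rw [Finset.mem_filter, Finset.mem_filter, Finset.mem_Ico] at hm
      obtain ⟨⟨⟨h1, h2⟩, h3, h4⟩, h5⟩ := hm
      rw [Finset.mem_filter, Finset.mem_Ico]
      have h6 : b + Q * (m / (Q : ℤ)) = m := by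
        rw [← h5]; exact Int.emod_add_mul_ediv m Q
      refine ⟨⟨Int.ediv_nonneg h1 hQ'.le, ?_⟩, by rw [h6]; exact h4⟩
      push_cast at h2
      exact Int.ediv_lt_of_lt_mul hQ' (by rw [mul_comm]; exact h2)
    · intro t ht
      show (b + Q * t) / (Q : ℤ) = t
      rw [Int.add_mul_ediv_left _ _ hQ'.ne', Int.ediv_eq_zero_of_lt hb'.1 hb'.2, zero_add]
    · intro m hm
      rw [Finset.mem_filter] at hm
      show b + Q * (m / (Q : ℤ)) = m
      rw [← hm.2]; exact Int.emod_add_mul_ediv m Q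
  · intro m hm
    have := Finset.mem_filter.1 hm
    exact this.2.1

theorem rel_class {Q n : ℕ} (hn : 0 < n) {a b t0 : ℤ} (h : b + Q * t0 ≡ a [ZMOD n]) (t : ℤ) :
    b + Q * t ≡ a [ZMOD n] ↔ t ≡ t0 [ZMOD ((n / Nat.gcd n Q : ℕ) : ℤ)] := by
  have hg : (0 : ℤ) < n := by exact_mod_cast hn
  constructor
  · intro h1
    have h2 : b + Q * t ≡ b + Q * t0 [ZMOD n] := h1.trans h.symm
    have h3 : (Q : ℤ) * t ≡ Q * t0 [ZMOD n] := Int.ModEq.add_left_cancel' b h2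
    have h4 := Int.ModEq.cancel_left_div_gcd hg h3
    have h5 : ((n / Nat.gcd n Q : ℕ) : ℤ) = (n : ℤ) / ((Int.gcd n Q : ℕ) : ℤ) := by
      rw [Int.gcd_natCast_natCast]; push_cast; rfl
    rw [h5]; exact h4
  · intro h1
    refine Int.ModEq.trans (Int.ModEq.add_left b ?_) h
    rw [Int.modEq_iff_dvd] at h1 ⊢
    obtain ⟨c, hc⟩ := h1
    have h6 : ((n / Nat.gcd n Q : ℕ) : ℤ) * (Nat.gcd n Q : ℕ) = n := by
      exact_mod_cast Nat.div_mul_cancel (Nat.gcd_dvd_left n Q)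
    obtain ⟨q, hq⟩ := Nat.gcd_dvd_right n Q
    refine ⟨q * c, ?_⟩
    have h7 : (Q : ℤ) = (Nat.gcd n Q : ℕ) * (q : ℤ) := by exact_mod_cast hq
    calc (Q : ℤ) * t0 - Q * t = Q * (t0 - t) := by ring
      _ = Q * (((n / Nat.gcd n Q : ℕ) : ℤ) * c) := by rw [hc]
      _ = (((n / Nat.gcd n Q : ℕ) : ℤ) * (Nat.gcd n Q : ℕ)) * (q * c) := by
          conv_lhs => rw [h7]
          ring
      _ = n * (q * c) := by rw [h6]

theorem divisors_card_le_of_dvd {m n : ℕ} (hn : 0 < n) (h : m ∣ n) :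
    m.divisors.card ≤ n.divisors.card :=
  Finset.card_le_card (Nat.divisors_subset_of_dvd hn.ne' h)

open scoped Classical in
/-- the covering inequality inside a union of residue classes mod `Q` -/
theorem rel_bound (F : Finset ι) (n : ι → ℕ) (a : ι → ℤ) (hn : ∀ i ∈ F, 0 < n i) (K : ℕ)
    (hK : ∀ i ∈ F, (n i).divisors.card ≤ K) {L : ℕ} (hL : 0 < L) (hdvd : ∀ i ∈ F, n i ∣ L)
    (X : ℕ) (hX : ∀ i ∈ F, n i ≤ X) {Q : ℕ} (hQ : 0 < Q) (B : Finset ℤ)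
    (hB : B ⊆ Finset.Ico (0 : ℤ) Q) :
    ((((Finset.Ico (0 : ℤ) ((Q * X : ℕ) : ℤ)).filter
        (fun m => m % (Q : ℤ) ∈ B ∧ ∃ i ∈ F, m ≡ a i [ZMOD n i])).card : ℕ) : ℝ) * L ≤
      2 * K ^ 2 * X * ((((Finset.Ico (0 : ℤ) ((Q * L : ℕ) : ℤ)).filter
        (fun m => m % (Q : ℤ) ∈ B ∧ ∃ i ∈ F, m ≡ a i [ZMOD n i])).card : ℕ) : ℝ) := by
  rw [fiber_count hQ B hB, fiber_count hQ B hB]
  push_cast
  rw [Finset.sum_mul, Finset.mul_sum]
  refine Finset.sum_le_sum fun b hb => ?_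
  set Fb : Finset ι := F.filter (fun i => ∃ t : ℤ, b + Q * t ≡ a i [ZMOD n i]) with hFb
  have hsol : ∀ i ∈ Fb, ∃ t : ℤ, b + Q * t ≡ a i [ZMOD n i] := fun i hi =>
    (Finset.mem_filter.1 hi).2
  choose! t0 ht0 using hsol
  set n' : ι → ℕ := fun i => n i / Nat.gcd (n i) Q with hn'
  have hFbF : ∀ i ∈ Fb, i ∈ F := fun i hi => (Finset.mem_filter.1 hi).1
  have hdv : ∀ i ∈ F, n' i ∣ n i := fun i _ => Nat.div_dvd_of_dvd (Nat.gcd_dvd_left _ _)
  have hpos : ∀ i ∈ F, 0 < n' i := fun i hi =>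
    Nat.div_pos (Nat.le_of_dvd (hn i hi) (Nat.gcd_dvd_left _ _))
      (Nat.gcd_pos_of_pos_left _ (hn i hi))
  have key : ∀ Z : ℕ, (Finset.Ico (0 : ℤ) Z).filter
      (fun t => ∃ i ∈ F, b + Q * t ≡ a i [ZMOD n i]) = hit Fb n' t0 (Finset.Ico (0 : ℤ) Z) := by
    intro Z
    unfold hit
    apply Finset.filter_congr
    intro t _
    constructor
    · rintro ⟨i, hi, h⟩
      have hib : i ∈ Fb := Finset.mem_filter.2 ⟨hi, t, h⟩
      exact ⟨i, hib, (rel_class (hn i hi) (ht0 i hib) t).1 h⟩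
    · rintro ⟨i, hi, h⟩
      exact ⟨i, hFbF i hi, (rel_class (hn i (hFbF i hi)) (ht0 i hi) t).2 h⟩
  have h1 := union_bound Fb n' t0 (fun i hi => hpos i (hFbF i hi)) K
    (fun i hi => (divisors_card_le_of_dvd (hn i (hFbF i hi)) (hdv i (hFbF i hi))).trans
      (hK i (hFbF i hi))) hL (fun i hi => (hdv i (hFbF i hi)).trans (hdvd i (hFbF i hi))) 0 X
    (fun i hi => (Nat.le_of_dvd (hn i (hFbF i hi)) (hdv i (hFbF i hi))).trans (hX i (hFbF i hi)))
  rw [zero_add] at h1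
  rw [key X, key L]
  exact h1

end Pool.Agent.H63LD
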